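import Mathlib
import Pool.Agent.Helper85.TE.Main

set_option autoImplicit false
set_option linter.unusedSectionVars false
set_option linter.unusedSimpArgs false

/-! Graphs with three eigenvalues: the positive form `θ1 - A + α αᵀ / (θ0 - θ2)`. -/

namespace TS

open Finset TE

variable {V : Type*} [Fintype V] [DecidableEq V]
variable {G : SimpleGraph V} [DecidableRel G.Adj] {T θ0 θ1 θ2 : ℝ} {α : V → ℝ}

lemma norm_sq (h : Dat G T θ0 θ1 θ2 α) : ∑ x, α x ^ 2 = (θ0 - θ1) * (θ0 - θ2) := by
  obtain ⟨x⟩ := h.conn.nonempty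
  have h1 := h.op α x
  have h2 : ∀ y, ∑ z, ad G y z * α z = θ0 * α y := h.eig
  have h3 : ∑ y, ad G x y * (∑ z, ad G y z * α z) = θ0 * (θ0 * α x) := by
    rw [← h.eig x, Finset.mul_sum]
    refine Finset.sum_congr rfl fun y _ => ?_
    rw [h2 y]; ring
  rw [h3, h2 x] at h1
  have h4 : ∑ z, α z * α z = ∑ z, α z ^ 2 := Finset.sum_congr rfl fun z _ => by ring
  rw [h4] at h1
  have h5 := h.pos x
  have h6 : α x * ((θ0 - θ1) * (θ0 - θ2)) = α x * ∑ z, α z ^ 2 := by rw [← h1]; ring
  exact (mul_left_cancel₀ h5.ne' h6).symm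

/-- the quadratic form of the adjacency matrix -/
def qf (G : SimpleGraph V) [DecidableRel G.Adj] (c : V → ℝ) : ℝ := ∑ x, c x * ∑ y, ad G x y * c y

lemma form (h : Dat G T θ0 θ1 θ2 α) (c : V → ℝ) :
    0 ≤ θ1 * ∑ x, c x ^ 2 - qf G c + (∑ x, α x * c x) ^ 2 / (θ0 - θ2) := by
  have hθ02 : 0 < θ0 - θ2 := by linarith [h.h01, h.h12]
  have hθ12 : 0 < θ1 - θ2 := by linarith [h.h12]
  set S : ℝ := ∑ x, α x * c x with hS
  set κ : ℝ := 1 / (θ0 - θ2) with hκ
  have hκ1 : κ * (θ0 - θ2) = 1 := by rw [hκ]; field_simp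
  set p : V → ℝ := fun x => θ1 * c x - ∑ y, ad G x y * c y + κ * S * α x with hp
  have hAp : ∀ x, ∑ y, ad G x y * p y = θ2 * p x := by
    intro x
    have h1 := h.op c x
    have h2 := h.eig x
    have h3 : ∑ y, ad G x y * p y = θ1 * ∑ y, ad G x y * c y
        - ∑ y, ad G x y * (∑ z, ad G y z * c z) + κ * S * ∑ y, ad G x y * α y := by
      rw [Finset.mul_sum, Finset.mul_sum, ← Finset.sum_sub_distrib, ← Finset.sum_add_distrib]
      refine Finset.sum_congr rfl fun y _ => ?_
      rw [hp]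
      ring
    rw [h3, h2, hp]
    simp only
    linear_combination (-1 : ℝ) * h1 + α x * S * hκ1
  have hpα : ∑ x, p x * α x = 0 := by
    have h1 : ∑ x, p x * ∑ y, ad G x y * α y = θ0 * ∑ x, p x * α x := by
      rw [Finset.mul_sum]
      refine Finset.sum_congr rfl fun x _ => ?_
      rw [h.eig x]; ring
    have h2 : ∑ x, p x * ∑ y, ad G x y * α y = θ2 * ∑ x, p x * α x := by
      rw [ad_adjoint, Finset.mul_sum]
      refine Finset.sum_congr rfl fun x _ => ?_
      rw [hAp x]; ring
    have h3 : (θ0 - θ2) * ∑ x, p x * α x = 0 := by linarith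
    exact (mul_eq_zero.mp h3).resolve_left hθ02.ne'
  have hpc : ∑ x, p x * (∑ y, ad G x y * c y) = θ2 * ∑ x, p x * c x := by
    rw [ad_adjoint, Finset.mul_sum]
    refine Finset.sum_congr rfl fun x _ => ?_
    rw [hAp x]; ring
  have hpp : ∑ x, p x ^ 2 = (θ1 - θ2) * ∑ x, p x * c x := by
    have h1 : ∀ x, p x ^ 2 = θ1 * (p x * c x) - p x * (∑ y, ad G x y * c y)
        + κ * S * (p x * α x) := by
      intro x
      have : p x = θ1 * c x - ∑ y, ad G x y * c y + κ * S * α x := rfl
      calc p x ^ 2 = p x * p x := by ring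
        _ = p x * (θ1 * c x - ∑ y, ad G x y * c y + κ * S * α x) := by rw [← this]
        _ = _ := by ring
    rw [Finset.sum_congr rfl fun x _ => h1 x, Finset.sum_add_distrib, Finset.sum_sub_distrib,
      ← Finset.mul_sum, ← Finset.mul_sum, hpc, hpα]
    ring
  have hpc2 : ∑ x, p x * c x = θ1 * ∑ x, c x ^ 2 - qf G c + S ^ 2 / (θ0 - θ2) := by
    have h1 : ∀ x, p x * c x = θ1 * c x ^ 2 - c x * (∑ y, ad G x y * c y)
        + κ * S * (α x * c x) := by
      intro x
      have : p x = θ1 * c x - ∑ y, ad G x y * c y + κ * S * α x := rfl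
      rw [this]; ring
    rw [Finset.sum_congr rfl fun x _ => h1 x, Finset.sum_add_distrib, Finset.sum_sub_distrib,
      ← Finset.mul_sum, ← Finset.mul_sum, ← hS]
    unfold qf
    rw [hκ]; ring
  rw [← hpc2]
  have h5 : 0 ≤ ∑ x, p x ^ 2 := Finset.sum_nonneg fun x _ => sq_nonneg _
  rw [hpp] at h5
  exact (pos_iff_pos_of_mul_pos_aux hθ12 h5)
where
  pos_iff_pos_of_mul_pos_aux {a b : ℝ} (ha : 0 < a) (hab : 0 ≤ a * b) : 0 ≤ b := by
    by_contra hb
    push Not at hb
    have := mul_neg_of_pos_of_neg ha hb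
    linarith

/-- the form at `δ_y + f` with `f y = 0` -/
lemma form_add (h : Dat G T θ0 θ1 θ2 α) (y : V) (f : V → ℝ) (hf : f y = 0) :
    0 ≤ θ1 * (1 + ∑ x, f x ^ 2) - 2 * (∑ z, ad G y z * f z) - qf G f
      + (α y + ∑ x, α x * f x) ^ 2 / (θ0 - θ2) := by
  have h1 := form h (fun x => (if x = y then 1 else 0) + f x)
  have e1 : ∑ x, ((if x = y then (1 : ℝ) else 0) + f x) ^ 2 = 1 + ∑ x, f x ^ 2 := by
    have : ∀ x, ((if x = y then (1 : ℝ) else 0) + f x) ^ 2 = (if x = y then 1 else 0) + f x ^ 2 := by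
      intro x
      split_ifs with hx
      · rw [hx, hf]; ring
      · ring
    rw [Finset.sum_congr rfl fun x _ => this x, Finset.sum_add_distrib]
    simp
  have e2 : ∑ x, α x * ((if x = y then (1 : ℝ) else 0) + f x) = α y + ∑ x, α x * f x := by
    have : ∀ x, α x * ((if x = y then (1 : ℝ) else 0) + f x) = (if x = y then α x else 0)
        + α x * f x := by
      intro x
      split_ifs with hx
      · ring
      · ring
    rw [Finset.sum_congr rfl fun x _ => this x, Finset.sum_add_distrib]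
    simp
  have e4 : ∀ x, ∑ z, ad G x z * ((if z = y then (1 : ℝ) else 0) + f z)
      = ad G x y + ∑ z, ad G x z * f z := by
    intro x
    have : ∀ z, ad G x z * ((if z = y then (1 : ℝ) else 0) + f z)
        = (if z = y then ad G x z else 0) + ad G x z * f z := by
      intro z
      split_ifs with hx
      · ring
      · ring
    rw [Finset.sum_congr rfl fun z _ => this z, Finset.sum_add_distrib]
    simp
  have e3 : qf G (fun x => (if x = y then 1 else 0) + f x) = 2 * (∑ z, ad G y z * f z) + qf G f := by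
    unfold qf
    have : ∀ x, ((if x = y then (1 : ℝ) else 0) + f x)
        * ∑ z, ad G x z * ((if z = y then (1 : ℝ) else 0) + f z)
        = (if x = y then (ad G x y + ∑ z, ad G x z * f z) else 0)
          + ad G y x * f x + f x * ∑ z, ad G x z * f z := by
      intro x
      rw [e4 x, ad_symm y x]
      split_ifs with hx
      · ring
      · ring
    rw [Finset.sum_congr rfl fun x _ => this x, Finset.sum_add_distrib, Finset.sum_add_distrib]
    rw [Finset.sum_ite_eq' Finset.univ y]
    have e5 : ad G y y = 0 := by unfold ad; simp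
    simp only [Finset.mem_univ, if_true, e5]
    ring
  rw [e1, e2, e3] at h1
  linarith

/-- the quadratic form on a coclique -/
lemma qf_idp (f : V → ℝ) (C : Finset V) (hC : ∀ u ∈ C, ∀ v ∈ C, ¬ G.Adj u v)
    (hf : ∀ x, x ∉ C → f x = 0) : qf G f = 0 := by
  unfold qf
  refine Finset.sum_eq_zero fun x _ => ?_
  by_cases hx : x ∈ C
  · have : ∑ y, ad G x y * f y = 0 := by
      refine Finset.sum_eq_zero fun y _ => ?_
      by_cases hy : y ∈ C
      · unfold ad; rw [if_neg (hC x hx y hy)]; ring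
      · rw [hf y hy]; ring
    rw [this]; ring
  · rw [hf x hx]; ring

/-- the quadratic form on a clique -/
lemma qf_clq (f : V → ℝ) (C : Finset V) (hC : ∀ u ∈ C, ∀ v ∈ C, u ≠ v → G.Adj u v)
    (hf : ∀ x, x ∉ C → f x = 0) : qf G f = (∑ x, f x) ^ 2 - ∑ x, f x ^ 2 := by
  have h1 : ∀ x, f x * ∑ y, ad G x y * f y = f x * (∑ y, f y) - f x ^ 2 := by
    intro x
    by_cases hx : x ∈ C
    · have : ∑ y, ad G x y * f y = ∑ y, (f y - if y = x then f y else 0) := by
        refine Finset.sum_congr rfl fun y _ => ?_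
        by_cases hyx : y = x
        · rw [hyx]; unfold ad; simp
        · rw [if_neg hyx]
          by_cases hy : y ∈ C
          · unfold ad; rw [if_pos (hC x hx y hy (Ne.symm hyx))]; ring
          · rw [hf y hy]; ring
      rw [this, Finset.sum_sub_distrib]
      simp
      ring
    · rw [hf x hx]; ring
  unfold qf
  rw [Finset.sum_congr rfl fun x _ => h1 x, Finset.sum_sub_distrib, ← Finset.sum_mul]
  ring

end TS
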