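import Mathlib
import Pool.Agent.TS.Form

set_option autoImplicit false
set_option linter.unusedSectionVars false
set_option linter.unusedSimpArgs false

namespace TS

open Finset TE

variable {V : Type*} [Fintype V] [DecidableEq V]
variable {G : SimpleGraph V} [DecidableRel G.Adj] {T θ0 θ1 θ2 : ℝ} {α : V → ℝ}

lemma deg_eq (h : Dat G T θ0 θ1 θ2 α) (x : V) : (G.degree x : ℝ) = α x ^ 2 + θ1 * (-θ2) := by
  rw [h.diag x]; ring

lemma cd_le_deg (x y : V) : (cd G x y : ℝ) ≤ G.degree x := by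
  have : cd G x y ≤ G.degree x := by
    rw [← SimpleGraph.card_neighborFinset_eq_degree]
    exact Finset.card_le_card Finset.inter_subset_left
  exact_mod_cast this

lemma cd_le_deg_adj (x y : V) (hxy : G.Adj x y) : (cd G x y : ℝ) + 1 ≤ G.degree x := by
  have h1 : cd G x y + 1 ≤ G.degree x := by
    rw [← SimpleGraph.card_neighborFinset_eq_degree]
    have h2 : G.neighborFinset x ∩ G.neighborFinset y ⊆ (G.neighborFinset x).erase y := by
      intro w hw
      rw [Finset.mem_inter, mem_N, mem_N] at hw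
      rw [Finset.mem_erase, mem_N]
      exact ⟨hw.2.ne', hw.1⟩
    have h3 := Finset.card_le_card h2
    rw [Finset.card_erase_of_mem ((mem_N x y).mpr hxy)] at h3
    have h4 : 0 < (G.neighborFinset x).card := Finset.card_pos.mpr ⟨y, (mem_N x y).mpr hxy⟩
    unfold cd
    omega
  exact_mod_cast h1

/-- the basic gap inequality -/
lemma gap (h : Dat G T θ0 θ1 θ2 α) (h1 : 0 ≤ θ1) (h2 : θ2 ≤ 0) (x y : V) :
    α x * (α y - α x) ≤ (θ1 + 1) * (-θ2) := by
  have h3 : 0 ≤ (θ1 + 1) * (-θ2) := mul_nonneg (by linarith) (by linarith)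
  by_cases hxy : x = y
  · rw [hxy]; simp; linarith
  · by_cases hadj : G.Adj x y
    · have h4 := cd_le_deg_adj x y hadj
      rw [h.adj x y hadj, deg_eq h x] at h4
      nlinarith
    · have h4 := cd_le_deg (G := G) x y
      rw [h.nadj x y hxy hadj, deg_eq h x] at h4
      nlinarith

lemma adj_ge (h : Dat G T θ0 θ1 θ2 α) (x y : V) (hxy : G.Adj x y) :
    -θ2 - θ1 ≤ α x * α y := by
  have h1 := h.adj x y hxy
  have h2 : (0 : ℝ) ≤ cd G x y := Nat.cast_nonneg _
  linarith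

/-- number of neighbours of `y` in `C` -/
def dd (G : SimpleGraph V) [DecidableRel G.Adj] (C : Finset V) (y : V) : ℝ := ∑ x ∈ C, ad G x y

lemma dd_eq (C : Finset V) (y : V) : dd G C y = ((C.filter (fun x => G.Adj y x)).card : ℝ) := by
  unfold dd ad
  rw [Finset.sum_boole]
  congr 2
  ext x
  simp only [Finset.mem_filter, G.adj_comm]

lemma dd_nonneg (C : Finset V) (y : V) : 0 ≤ dd G C y := by
  rw [dd_eq]; exact Nat.cast_nonneg _

lemma dd_le (C : Finset V) (y : V) : dd G C y ≤ C.card := by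
  rw [dd_eq]; exact_mod_cast Finset.card_le_card (Finset.filter_subset _ _)

lemma sum_ad (x : V) : ∑ y, ad G x y = G.degree x := by
  unfold ad
  rw [Finset.sum_boole]
  congr 1
  rw [← SimpleGraph.card_neighborFinset_eq_degree]
  congr 1
  ext y
  simp

lemma sum_dd (C : Finset V) : ∑ y, dd G C y = ∑ x ∈ C, (G.degree x : ℝ) := by
  unfold dd
  rw [Finset.sum_comm]
  exact Finset.sum_congr rfl fun x _ => sum_ad x

lemma sum_dd_sq (C : Finset V) :
    ∑ y, dd G C y ^ 2 = ∑ x ∈ C, ∑ z ∈ C, (cd G x z : ℝ) := by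
  have h1 : ∀ y, dd G C y ^ 2 = ∑ x ∈ C, ∑ z ∈ C, ad G x y * ad G y z := by
    intro y
    have : dd G C y ^ 2 = (∑ x ∈ C, ad G x y) * (∑ z ∈ C, ad G y z) := by
      have e : ∑ z ∈ C, ad G y z = dd G C y := Finset.sum_congr rfl fun z _ => ad_symm y z
      rw [e]; unfold dd; ring
    rw [this, Finset.sum_mul_sum]
  rw [Finset.sum_congr rfl fun y _ => h1 y, Finset.sum_comm]
  refine Finset.sum_congr rfl fun x _ => ?_
  rw [Finset.sum_comm]
  exact Finset.sum_congr rfl fun z _ => ad_sq x z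

lemma sum_dd_mul (C : Finset V) :
    ∑ y, dd G C y * (C.card - dd G C y) = ∑ x ∈ C, ∑ z ∈ C, ((G.degree x : ℝ) - cd G x z) := by
  have h1 : ∀ y, dd G C y * (C.card - dd G C y) = C.card * dd G C y - dd G C y ^ 2 := by
    intro y; ring
  rw [Finset.sum_congr rfl fun y _ => h1 y, Finset.sum_sub_distrib, ← Finset.mul_sum, sum_dd,
    sum_dd_sq]
  simp only [Finset.sum_sub_distrib, Finset.sum_const, nsmul_eq_mul]
  rw [Finset.mul_sum]

/-- a clique or a coclique -/
def Hom (G : SimpleGraph V) (C : Finset V) : Prop :=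
  (∀ u ∈ C, ∀ v ∈ C, u ≠ v → G.Adj u v) ∨ (∀ u ∈ C, ∀ v ∈ C, ¬ G.Adj u v)

/-- the double counting bound for homogeneous sets -/
lemma dc (h : Dat G T θ0 θ1 θ2 α) (h2 : θ1 ≤ -θ2) (C : Finset V) (hC : Hom G C) :
    (C.card : ℝ) * (C.card - 1) * (θ1 * (-θ2)) ≤ ∑ y, dd G C y * (C.card - dd G C y) := by
  rw [sum_dd_mul]
  have key : ∀ x ∈ C, ∀ z ∈ C, α x ^ 2 - α x * α z + (if x = z then 0 else θ1 * (-θ2)) ≤
      (G.degree x : ℝ) - cd G x z := by
    intro x hx z hz
    by_cases hxz : x = z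
    · rw [if_pos hxz, ← hxz]
      have : cd G x x = G.degree x := by unfold cd; rw [Finset.inter_self]; rfl
      rw [this]; apply le_of_eq; ring
    · rw [if_neg hxz]
      rcases hC with hC | hC
      · rw [h.adj x z (hC x hx z hz hxz), deg_eq h x]
        linarith
      · rw [h.nadj x z hxz (hC x hx z hz), deg_eq h x]
        linarith
  have h3 : ∑ x ∈ C, ∑ z ∈ C, (α x ^ 2 - α x * α z + (if x = z then 0 else θ1 * (-θ2))) ≤
      ∑ x ∈ C, ∑ z ∈ C, ((G.degree x : ℝ) - cd G x z) :=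
    Finset.sum_le_sum fun x hx => Finset.sum_le_sum fun z hz => key x hx z hz
  refine le_trans ?_ h3
  have h4 : ∀ x ∈ C, ∑ z ∈ C, (α x ^ 2 - α x * α z + (if x = z then 0 else θ1 * (-θ2))) =
      C.card * α x ^ 2 - α x * (∑ z ∈ C, α z) + (C.card - 1) * (θ1 * (-θ2)) := by
    intro x hx
    rw [Finset.sum_add_distrib, Finset.sum_sub_distrib, Finset.sum_const, nsmul_eq_mul,
      ← Finset.mul_sum]
    congr 1
    have : ∀ z ∈ C, (if x = z then (0 : ℝ) else θ1 * (-θ2)) =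
        θ1 * (-θ2) - (if x = z then θ1 * (-θ2) else 0) := by
      intro z _
      split_ifs <;> ring
    rw [Finset.sum_congr rfl this, Finset.sum_sub_distrib, Finset.sum_const, nsmul_eq_mul,
      Finset.sum_ite_eq, if_pos hx]
    ring
  rw [Finset.sum_congr rfl h4, Finset.sum_add_distrib, Finset.sum_sub_distrib, ← Finset.mul_sum,
    ← Finset.sum_mul, Finset.sum_const, nsmul_eq_mul]
  have h5 : (∑ z ∈ C, α z) ^ 2 ≤ C.card * ∑ z ∈ C, α z ^ 2 := sq_sum_le_card_mul_sum_sq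
  nlinarith

/-- the dichotomy for a vertex and a homogeneous set -/
lemma dich (h : Dat G T θ0 θ1 θ2 α) (h1 : 0 ≤ θ1) (C : Finset V) (hC : Hom G C)
    (y : V) (hy : y ∉ C) (a b E : ℝ) (ha : 0 < a) (hab : ∀ x ∈ C, a ≤ α x ∧ α x ≤ b)
    (hE : α y ^ 2 ≤ E * (θ0 - θ2)) (s : ℕ)
    (hs1 : s ≤ (C.filter (fun x => G.Adj y x)).card)
    (hs0 : s ≤ (C.filter (fun x => ¬ G.Adj y x)).card) :
    (s : ℝ) * a ^ 2 ≤ 2 * (θ1 + 1) * (θ1 + E) * b ^ 2 := by
  have hθ02 : 0 < θ0 - θ2 := by linarith [h.h01, h.h12]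
  obtain ⟨X1, hX1, hX1c⟩ := Finset.exists_subset_card_eq hs1
  obtain ⟨X0, hX0, hX0c⟩ := Finset.exists_subset_card_eq hs0
  have hE0 : 0 ≤ E := by
    by_contra hcon
    push Not at hcon
    have := mul_neg_of_neg_of_pos hcon hθ02
    nlinarith [sq_nonneg (α y)]
  rcases Nat.eq_zero_or_pos s with hs | hs
  · rw [hs]; push_cast
    have : 0 ≤ 2 * (θ1 + 1) * (θ1 + E) * b ^ 2 := by positivity
    linarith
  have hX1ne : X1.Nonempty := by rw [← Finset.card_pos, hX1c]; exact hs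
  obtain ⟨x1, hx1⟩ := hX1ne
  have hXC1 : ∀ x ∈ X1, x ∈ C ∧ G.Adj y x := fun x hx => Finset.mem_filter.mp (hX1 hx)
  have hXC0 : ∀ x ∈ X0, x ∈ C ∧ ¬ G.Adj y x := fun x hx => Finset.mem_filter.mp (hX0 hx)
  have hb : 0 < b := by
    have := hab x1 (hXC1 x1 hx1).1
    linarith
  have hdisj : ∀ x, x ∈ X1 → x ∉ X0 := fun x hx hx' => (hXC0 x hx').2 (hXC1 x hx).2
  set τ : ℝ := a ^ 2 / (2 * (θ1 + 1) * b) with hτ
  have hτ0 : 0 < τ := by rw [hτ]; positivity
  set f : V → ℝ := fun z => (if z ∈ X1 then τ * (1 / α z) else 0)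
    - (if z ∈ X0 then τ * (1 / α z) else 0) with hf
  have hfy : f y = 0 := by
    have e1 : y ∉ X1 := fun hh => hy (hXC1 y hh).1
    have e0 : y ∉ X0 := fun hh => hy (hXC0 y hh).1
    rw [hf]; simp only [if_neg e1, if_neg e0]; ring
  have hfC : ∀ x, x ∉ C → f x = 0 := by
    intro x hx
    have e1 : x ∉ X1 := fun hh => hx (hXC1 x hh).1
    have e0 : x ∉ X0 := fun hh => hx (hXC0 x hh).1
    rw [hf]; simp only [if_neg e1, if_neg e0]; ring
  have key := form_add h y f hfy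
  have hsum0 : ∑ x, α x * f x = 0 := by
    have e1 : ∀ x, α x * f x = (if x ∈ X1 then τ else 0) - (if x ∈ X0 then τ else 0) := by
      intro x
      have := (h.pos x).ne'
      rw [hf]; simp only
      split_ifs <;> field_simp <;> ring
    rw [Finset.sum_congr rfl fun x _ => e1 x, Finset.sum_sub_distrib, Finset.sum_ite_mem,
      Finset.sum_ite_mem, Finset.univ_inter, Finset.univ_inter, Finset.sum_const,
      Finset.sum_const, hX1c, hX0c]
    ring
  have hsq : ∑ x, f x ^ 2 ≤ 2 * s * (τ ^ 2 / a ^ 2) := by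
    have e1 : ∀ x, f x ^ 2 ≤ (if x ∈ X1 then τ ^ 2 / a ^ 2 else 0)
        + (if x ∈ X0 then τ ^ 2 / a ^ 2 else 0) := by
      intro x
      have hbd : x ∈ C → (τ * (1 / α x)) ^ 2 ≤ τ ^ 2 / a ^ 2 := by
        intro hx
        have h3 := (hab x hx).1
        rw [mul_pow, one_div, inv_pow, div_eq_mul_inv]
        apply mul_le_mul_of_nonneg_left _ (sq_nonneg _)
        apply inv_anti₀ (by positivity)
        exact pow_le_pow_left₀ ha.le h3 2
      rw [hf]; simp only
      by_cases m1 : x ∈ X1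
      · rw [if_pos m1, if_neg (hdisj x m1), if_pos m1, if_neg (hdisj x m1)]
        have := hbd (hXC1 x m1).1
        simpa using this
      · by_cases m0 : x ∈ X0
        · rw [if_neg m1, if_pos m0, if_neg m1, if_pos m0]
          have := hbd (hXC0 x m0).1
          simpa using this
        · rw [if_neg m1, if_neg m0, if_neg m1, if_neg m0]; simp
    refine (Finset.sum_le_sum fun x _ => e1 x).trans ?_
    rw [Finset.sum_add_distrib, Finset.sum_ite_mem, Finset.sum_ite_mem, Finset.univ_inter,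
      Finset.univ_inter, Finset.sum_const, Finset.sum_const, hX1c, hX0c]
    simp only [nsmul_eq_mul]
    apply le_of_eq; ring
  have hlin : s * (τ / b) ≤ ∑ z, ad G y z * f z := by
    have e1 : ∀ z, (if z ∈ X1 then τ / b else 0) ≤ ad G y z * f z := by
      intro z
      rw [hf]; simp only
      by_cases m1 : z ∈ X1
      · rw [if_pos m1, if_pos m1, if_neg (hdisj z m1)]
        unfold ad
        rw [if_pos (hXC1 z m1).2, sub_zero, one_mul, div_eq_mul_inv, one_div]
        apply mul_le_mul_of_nonneg_left _ hτ0.le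
        exact inv_anti₀ (h.pos z) (hab z (hXC1 z m1).1).2
      · by_cases m0 : z ∈ X0
        · rw [if_neg m1, if_neg m1, if_pos m0]
          unfold ad
          rw [if_neg (hXC0 z m0).2]; simp
        · rw [if_neg m1, if_neg m1, if_neg m0]; simp
    have := Finset.sum_le_sum fun z (_ : z ∈ Finset.univ) => e1 z
    rw [Finset.sum_ite_mem, Finset.univ_inter, Finset.sum_const, hX1c, nsmul_eq_mul] at this
    exact this
  have hq : -qf G f ≤ ∑ x, f x ^ 2 := by
    rcases hC with hC | hC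
    · rw [qf_clq f C hC hfC]
      nlinarith [sq_nonneg (∑ x, f x)]
    · rw [qf_idp f C hC hfC]
      have : 0 ≤ ∑ x, f x ^ 2 := Finset.sum_nonneg fun x _ => sq_nonneg _
      linarith
  rw [hsum0, add_zero] at key
  have hη : α y ^ 2 / (θ0 - θ2) ≤ E := by rw [div_le_iff₀ hθ02]; exact hE
  have k1 : 2 * (s * (τ / b)) ≤ θ1 + E + (θ1 + 1) * (2 * s * (τ ^ 2 / a ^ 2)) := by
    have : (θ1 + 1) * ∑ x, f x ^ 2 ≤ (θ1 + 1) * (2 * s * (τ ^ 2 / a ^ 2)) :=
      mul_le_mul_of_nonneg_left hsq (by linarith)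
    nlinarith
  have e5 : 2 * ((s : ℝ) * (τ / b)) = s * a ^ 2 / ((θ1 + 1) * b ^ 2) := by
    rw [hτ]; field_simp
  have e6 : (θ1 + 1) * (2 * s * (τ ^ 2 / a ^ 2)) = (s * a ^ 2 / ((θ1 + 1) * b ^ 2)) / 2 := by
    rw [hτ]; field_simp
  rw [e5, e6] at k1
  have k2 : (s : ℝ) * a ^ 2 / ((θ1 + 1) * b ^ 2) ≤ 2 * (θ1 + E) := by linarith
  rw [div_le_iff₀ (by positivity)] at k2
  linarith

/-- dichotomy in the form used for counting -/
lemma dich' (h : Dat G T θ0 θ1 θ2 α) (h1 : 0 ≤ θ1) (C : Finset V) (hC : Hom G C)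
    (a b E s0 : ℝ) (ha : 0 < a) (hab : ∀ x ∈ C, a ≤ α x ∧ α x ≤ b)
    (hE : ∀ y, α y ^ 2 ≤ E * (θ0 - θ2)) (hs0 : 1 ≤ s0)
    (hs : 2 * (θ1 + 1) * (θ1 + E) * b ^ 2 ≤ s0 * a ^ 2) (y : V) :
    dd G C y * (C.card - dd G C y) ≤ s0 * C.card := by
  by_cases hy : y ∈ C
  · rcases hC with hC | hC
    · have h3 : dd G C y = C.card - 1 := by
        rw [dd_eq]
        have : C.filter (fun x => G.Adj y x) = C.erase y := by
          ext x
          rw [Finset.mem_filter, Finset.mem_erase]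
          constructor
          · rintro ⟨h4, h5⟩; exact ⟨h5.ne', h4⟩
          · rintro ⟨h4, h5⟩; exact ⟨h5, hC y hy x h5 (Ne.symm h4)⟩
        rw [this, Finset.card_erase_of_mem hy, Nat.cast_sub (Finset.card_pos.mpr ⟨y, hy⟩)]
        simp
      rw [h3]
      have : (1 : ℝ) ≤ C.card := by exact_mod_cast Finset.card_pos.mpr ⟨y, hy⟩
      nlinarith
    · have h3 : dd G C y = 0 := by
        rw [dd_eq]
        have : C.filter (fun x => G.Adj y x) = ∅ := by
          rw [Finset.filter_eq_empty_iff]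
          intro x hx; exact hC y hy x hx
        rw [this]; simp
      rw [h3]
      have : (0 : ℝ) ≤ C.card := Nat.cast_nonneg _
      nlinarith
  · set p := (C.filter (fun x => G.Adj y x)).card with hp
    set q := (C.filter (fun x => ¬ G.Adj y x)).card with hq
    have hpq : p + q = C.card := Finset.card_filter_add_card_filter_not _
    have hd : dd G C y = p := dd_eq C y
    have hcard : (C.card : ℝ) = p + q := by rw [← hpq]; push_cast; ring
    rw [hd, hcard]
    have hmin : ((min p q : ℕ) : ℝ) ≤ s0 := by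
      have h3 := dich h h1 C hC y hy a b E ha hab (hE y) (min p q) (min_le_left _ _)
        (min_le_right _ _)
      have h4 : ((min p q : ℕ) : ℝ) * a ^ 2 ≤ s0 * a ^ 2 := h3.trans hs
      exact le_of_mul_le_mul_right h4 (by positivity)
    have hp0 : (0 : ℝ) ≤ p := Nat.cast_nonneg _
    have hq0 : (0 : ℝ) ≤ q := Nat.cast_nonneg _
    rcases le_total p q with hle | hle
    · rw [min_eq_left hle] at hmin
      nlinarith
    · rw [min_eq_right hle] at hmin
      nlinarith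

/-- large homogeneous sets force many vertices -/
lemma hom_bound (h : Dat G T θ0 θ1 θ2 α) (h1 : 0 ≤ θ1) (h2 : θ1 ≤ -θ2) (C : Finset V)
    (hC : Hom G C) (hne : C.Nonempty)
    (a b E s0 : ℝ) (ha : 0 < a) (hab : ∀ x ∈ C, a ≤ α x ∧ α x ≤ b)
    (hE : ∀ y, α y ^ 2 ≤ E * (θ0 - θ2)) (hs0 : 1 ≤ s0)
    (hs : 2 * (θ1 + 1) * (θ1 + E) * b ^ 2 ≤ s0 * a ^ 2) :
    ((C.card : ℝ) - 1) * (θ1 * (-θ2)) ≤ s0 * Fintype.card V := by
  have h3 := dc h h2 C hC
  have h4 : ∑ y, dd G C y * (C.card - dd G C y) ≤ ∑ _y : V, s0 * C.card :=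
    Finset.sum_le_sum fun y _ => dich' h h1 C hC a b E s0 ha hab hE hs0 hs y
  rw [Finset.sum_const, Finset.card_univ, nsmul_eq_mul] at h4
  have h5 : (0 : ℝ) < C.card := by exact_mod_cast Finset.card_pos.mpr hne
  have h6 : (C.card : ℝ) * (((C.card : ℝ) - 1) * (θ1 * (-θ2))) ≤
      C.card * (s0 * Fintype.card V) := by
    calc (C.card : ℝ) * (((C.card : ℝ) - 1) * (θ1 * (-θ2)))
        = (C.card : ℝ) * (C.card - 1) * (θ1 * (-θ2)) := by ring
      _ ≤ _ := h3.trans h4
      _ = _ := by ring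
  exact le_of_mul_le_mul_left h6 h5

end TS
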