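import Mathlib
import Pool.Agent.TS.Basic

set_option autoImplicit false
set_option linter.unusedSectionVars false
set_option linter.unusedSimpArgs false

namespace TS

open Finset TE

variable {V : Type*} [Fintype V] [DecidableEq V]
variable {G : SimpleGraph V} [DecidableRel G.Adj] {T θ0 θ1 θ2 : ℝ} {α : V → ℝ}

lemma ramsey (G : SimpleGraph V) [DecidableRel G.Adj] : ∀ (n a b : ℕ), a + b = n →
    ∀ W : Finset V, 2 ^ n ≤ W.card →
    (∃ C, C ⊆ W ∧ C.card = a ∧ ∀ u ∈ C, ∀ v ∈ C, u ≠ v → G.Adj u v) ∨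
    (∃ C, C ⊆ W ∧ C.card = b ∧ ∀ u ∈ C, ∀ v ∈ C, ¬ G.Adj u v) := by
  intro n
  induction n with
  | zero =>
    intro a b hab W hW
    left
    refine ⟨∅, Finset.empty_subset _, ?_, ?_⟩
    · simp; omega
    · simp
  | succ n ih =>
    intro a b hab W hW
    rcases Nat.eq_zero_or_pos a with ha | ha
    · left
      exact ⟨∅, Finset.empty_subset _, by simp [ha], by simp⟩
    rcases Nat.eq_zero_or_pos b with hb | hb
    · right
      exact ⟨∅, Finset.empty_subset _, by simp [hb], by simp⟩
    have hWpos : 0 < W.card := lt_of_lt_of_le (by positivity) hW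
    obtain ⟨v, hv⟩ := Finset.card_pos.mp hWpos
    set N := (W.erase v).filter (fun x => G.Adj v x) with hN
    set M := (W.erase v).filter (fun x => ¬ G.Adj v x) with hM
    have hNM : N.card + M.card = W.card - 1 := by
      rw [← Finset.card_erase_of_mem hv]
      exact Finset.card_filter_add_card_filter_not _
    have hpow : 2 ^ (n + 1) = 2 * 2 ^ n := by ring
    by_cases hNc : 2 ^ n ≤ N.card
    · rcases ih (a - 1) b (by omega) N hNc with ⟨C, hCN, hCc, hC⟩ | ⟨C, hCN, hCc, hC⟩
      · left
        have hvC : v ∉ C := by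
          intro hh
          have := hCN hh
          rw [hN, Finset.mem_filter, Finset.mem_erase] at this
          exact this.1.1 rfl
        refine ⟨insert v C, ?_, ?_, ?_⟩
        · intro x hx
          rw [Finset.mem_insert] at hx
          rcases hx with rfl | hx
          · exact hv
          · have := hCN hx
            rw [hN, Finset.mem_filter, Finset.mem_erase] at this
            exact this.1.2
        · rw [Finset.card_insert_of_notMem hvC, hCc]; omega
        · intro x hx y hy hxy
          have hadj : ∀ z ∈ C, G.Adj v z := by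
            intro z hz
            have := hCN hz
            rw [hN, Finset.mem_filter] at this
            exact this.2
          rw [Finset.mem_insert] at hx hy
          rcases hx with rfl | hx
          · rcases hy with rfl | hy
            · exact absurd rfl hxy
            · exact hadj y hy
          · rcases hy with rfl | hy
            · exact (hadj x hx).symm
            · exact hC x hx y hy hxy
      · right
        refine ⟨C, ?_, hCc, hC⟩
        intro x hx
        have := hCN hx
        rw [hN, Finset.mem_filter, Finset.mem_erase] at this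
        exact this.1.2
    · have hMc : 2 ^ n ≤ M.card := by omega
      rcases ih a (b - 1) (by omega) M hMc with ⟨C, hCN, hCc, hC⟩ | ⟨C, hCN, hCc, hC⟩
      · left
        refine ⟨C, ?_, hCc, hC⟩
        intro x hx
        have := hCN hx
        rw [hM, Finset.mem_filter, Finset.mem_erase] at this
        exact this.1.2
      · right
        have hvC : v ∉ C := by
          intro hh
          have := hCN hh
          rw [hM, Finset.mem_filter, Finset.mem_erase] at this
          exact this.1.1 rfl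
        refine ⟨insert v C, ?_, ?_, ?_⟩
        · intro x hx
          rw [Finset.mem_insert] at hx
          rcases hx with rfl | hx
          · exact hv
          · have := hCN hx
            rw [hM, Finset.mem_filter, Finset.mem_erase] at this
            exact this.1.2
        · rw [Finset.card_insert_of_notMem hvC, hCc]; omega
        · intro x hx y hy
          have hadj : ∀ z ∈ C, ¬ G.Adj v z := by
            intro z hz
            have := hCN hz
            rw [hM, Finset.mem_filter] at this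
            exact this.2
          rw [Finset.mem_insert] at hx hy
          rcases hx with rfl | hx
          · rcases hy with rfl | hy
            · simp
            · exact hadj y hy
          · rcases hy with rfl | hy
            · exact fun hh => hadj x hx hh.symm
            · exact hC x hx y hy

lemma exists_hom (G : SimpleGraph V) [DecidableRel G.Adj] (k : ℕ)
    (hk : 2 ^ (k + k) ≤ Fintype.card V) : ∃ C : Finset V, C.card = k ∧ Hom G C := by
  rcases ramsey G (k + k) k k rfl Finset.univ (by rw [Finset.card_univ]; exact hk) with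
    ⟨C, _, h1, h2⟩ | ⟨C, _, h1, h2⟩
  · exact ⟨C, h1, Or.inl h2⟩
  · exact ⟨C, h1, Or.inr h2⟩

lemma exists_adj (h : Dat G T θ0 θ1 θ2 α) (hpos : 0 < θ1 * (-θ2)) (x : V) : ∃ y, G.Adj x y := by
  by_contra hcon
  push Not at hcon
  have h1 : ∑ y, ad G x y = 0 := Finset.sum_eq_zero fun y _ => by
    unfold ad; rw [if_neg (hcon y)]
  rw [sum_ad, deg_eq h x] at h1
  nlinarith [sq_nonneg (α x)]

lemma lt_card (h : Dat G T θ0 θ1 θ2 α) (x : V) : θ1 * (-θ2) ≤ Fintype.card V := by
  have h1 := deg_eq h x
  have h2 : G.degree x < Fintype.card V := G.degree_lt_card_verts x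
  have h3 : (G.degree x : ℝ) < Fintype.card V := by exact_mod_cast h2
  nlinarith [sq_nonneg (α x)]

noncomputable def D0 (M K : ℝ) : ℝ := M ^ 2 + K
noncomputable def C1 (M K : ℝ) : ℝ := 1 + D0 M K + 4 * M ^ 2 * D0 M K ^ 2
noncomputable def s0 (M K : ℝ) : ℝ := 8 * M ^ 4 * (K + 1) * (K + M ^ 2)

/-- when all Perron weights are `O(√σ)`, the number of vertices is `O(σ)` -/
lemma card_small (h : Dat G T θ0 θ1 θ2 α) (M K : ℝ) (hM : 1 ≤ M) (hK : 1 ≤ K)
    (h1 : 1 ≤ θ1) (h1K : θ1 ≤ K) (hσ : 1 ≤ -θ2)
    (a : ℝ) (ha : 0 < a) (ha2 : -θ2 ≤ 4 * M ^ 2 * a ^ 2)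
    (hlo : ∀ x, a ≤ α x) (hup : ∀ x, α x ^ 2 ≤ M ^ 2 * (-θ2)) :
    (Fintype.card V : ℝ) ≤ C1 M K * (-θ2) := by
  obtain ⟨x⟩ := h.conn.nonempty
  set σ := -θ2 with hσdef
  have hD : ∀ y, (G.degree y : ℝ) ≤ D0 M K * σ := by
    intro y
    rw [deg_eq h y]
    unfold D0
    have := hup y
    have : θ1 * σ ≤ K * σ := mul_le_mul_of_nonneg_right h1K (by linarith)
    linarith
  have hD0 : 0 ≤ D0 M K := by unfold D0; positivity
  have hcd : ∑ y, (cd G x y : ℝ) ≤ (D0 M K * σ) ^ 2 := by
    have e1 : ∑ y, (cd G x y : ℝ) = ∑ z, ad G x z * (G.degree z : ℝ) := by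
      have : ∀ y, (cd G x y : ℝ) = ∑ z, ad G x z * ad G z y := fun y => (ad_sq x y).symm
      rw [Finset.sum_congr rfl fun y _ => this y, Finset.sum_comm]
      refine Finset.sum_congr rfl fun z _ => ?_
      rw [← Finset.mul_sum, sum_ad]
    rw [e1]
    calc ∑ z, ad G x z * (G.degree z : ℝ) ≤ ∑ z, ad G x z * (D0 M K * σ) :=
          Finset.sum_le_sum fun z _ => mul_le_mul_of_nonneg_left (hD z) (ad_nonneg G x z)
      _ = (G.degree x : ℝ) * (D0 M K * σ) := by rw [← Finset.sum_mul, sum_ad]
      _ ≤ (D0 M K * σ) * (D0 M K * σ) :=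
          mul_le_mul_of_nonneg_right (hD x) (by positivity)
      _ = _ := by ring
  have hlow : ((Fintype.card V : ℝ) - 1 - G.degree x) * a ^ 2 ≤ ∑ y, (cd G x y : ℝ) := by
    have e1 : ∀ y, (1 - (if y = x then 1 else 0) - ad G x y) * a ^ 2 ≤ (cd G x y : ℝ) := by
      intro y
      have hnn : (0 : ℝ) ≤ cd G x y := Nat.cast_nonneg _
      by_cases hy : y = x
      · rw [hy, if_pos rfl]
        have : ad G x x = 0 := by unfold ad; simp
        rw [this]; simp
      · rw [if_neg hy]
        by_cases hadj : G.Adj x y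
        · unfold ad; rw [if_pos hadj]; simp
        · unfold ad; rw [if_neg hadj, h.nadj x y (Ne.symm hy) hadj]
          have h3 := hlo x
          have h4 := hlo y
          nlinarith
    have e2 := Finset.sum_le_sum fun y (_ : y ∈ Finset.univ) => e1 y
    rw [← Finset.sum_mul, Finset.sum_sub_distrib, Finset.sum_sub_distrib, sum_ad] at e2
    simpa using e2
  have h5 : ((Fintype.card V : ℝ) - 1 - G.degree x) * a ^ 2 ≤ (D0 M K * σ) ^ 2 := hlow.trans hcd
  have h6 : ((Fintype.card V : ℝ) - 1 - G.degree x) * σ ≤ 4 * M ^ 2 * (D0 M K * σ) ^ 2 := by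
    have hn : 0 ≤ (Fintype.card V : ℝ) - 1 - G.degree x := by
      have h2 : G.degree x < Fintype.card V := G.degree_lt_card_verts x
      have h3 : G.degree x + 1 ≤ Fintype.card V := h2
      have h4 : (G.degree x : ℝ) + 1 ≤ Fintype.card V := by exact_mod_cast h3
      linarith
    calc ((Fintype.card V : ℝ) - 1 - G.degree x) * σ
        ≤ ((Fintype.card V : ℝ) - 1 - G.degree x) * (4 * M ^ 2 * a ^ 2) :=
          mul_le_mul_of_nonneg_left ha2 hn
      _ = 4 * M ^ 2 * (((Fintype.card V : ℝ) - 1 - G.degree x) * a ^ 2) := by ring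
      _ ≤ _ := mul_le_mul_of_nonneg_left h5 (by positivity)
  have h7 : (Fintype.card V : ℝ) - 1 - G.degree x ≤ 4 * M ^ 2 * D0 M K ^ 2 * σ := by
    have hσ0 : 0 < σ := by linarith
    have : ((Fintype.card V : ℝ) - 1 - G.degree x) * σ ≤ (4 * M ^ 2 * D0 M K ^ 2 * σ) * σ := by
      calc _ ≤ _ := h6
        _ = _ := by ring
    exact le_of_mul_le_mul_right this hσ0
  have h8 := hD x
  unfold C1
  nlinarith

/-- Step 2: some Perron weight is much larger than `√σ` -/
lemma sparse (h : Dat G T θ0 θ1 θ2 α) (M K : ℝ) (hM : 1 ≤ M) (hK : 1 ≤ K)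
    (h1 : 1 ≤ θ1) (h1K : θ1 ≤ K) (hσ1 : 2 * K ≤ -θ2)
    (k : ℕ) (hk : 1 + s0 M K * C1 M K < k) (hσ2 : (2 : ℝ) ^ (k + k) ≤ -θ2) :
    ∃ x, M ^ 2 * (-θ2) ≤ α x ^ 2 := by
  by_contra hcon
  push Not at hcon
  set σ := -θ2 with hσdef
  have hσ : 1 ≤ σ := by linarith
  have hσ0 : 0 < σ := by linarith
  set r := Real.sqrt σ with hr
  have hr2 : r ^ 2 = σ := Real.sq_sqrt hσ0.le
  have hr0 : 0 < r := Real.sqrt_pos.mpr hσ0
  have hup : ∀ x, α x ≤ M * r := by
    intro x
    have h2 : α x ^ 2 ≤ (M * r) ^ 2 := by rw [mul_pow, hr2]; exact (hcon x).le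
    exact (pow_le_pow_iff_left₀ (h.pos x).le (by positivity) two_ne_zero).mp h2
  have hlo : ∀ x, r / (2 * M) ≤ α x := by
    intro x
    obtain ⟨y, hy⟩ := exists_adj h (by nlinarith) x
    have h2 := adj_ge h x y hy
    have h3 := hup y
    have h4 := h.pos x
    have h5 : σ / 2 ≤ α x * (M * r) := by
      have : α x * α y ≤ α x * (M * r) := mul_le_mul_of_nonneg_left h3 h4.le
      linarith
    rw [div_le_iff₀ (by positivity)]
    have h6 : r * r ≤ (α x * (2 * M)) * r := by nlinarith
    exact le_of_mul_le_mul_right h6 hr0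
  have hn : (Fintype.card V : ℝ) ≤ C1 M K * σ := by
    refine card_small h M K hM hK h1 h1K hσ (r / (2 * M)) (by positivity) ?_ hlo
      (fun x => (hcon x).le)
    rw [div_pow, ← hσdef, ← hr2]
    apply le_of_eq
    field_simp
    ring
  have hcardk : 2 ^ (k + k) ≤ Fintype.card V := by
    obtain ⟨x⟩ := h.conn.nonempty
    have h2 := lt_card h x
    have h3 : σ ≤ θ1 * σ := by nlinarith
    have h4 : (2 : ℝ) ^ (k + k) ≤ Fintype.card V := by linarith
    exact_mod_cast h4
  obtain ⟨C, hCk, hC⟩ := exists_hom G k hcardk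
  have hs0 : 1 ≤ s0 M K := by
    unfold s0
    have e1 : (1 : ℝ) ≤ M ^ 4 := one_le_pow₀ hM
    have e2 : (1 : ℝ) ≤ K + M ^ 2 := by nlinarith
    have e3 : (1 : ℝ) ≤ K + 1 := by linarith
    have e4 : (1 : ℝ) ≤ M ^ 4 * (K + 1) := by nlinarith
    have e5 : (1 : ℝ) ≤ M ^ 4 * (K + 1) * (K + M ^ 2) := by nlinarith
    nlinarith
  have hC1 : 0 ≤ C1 M K := by unfold C1 D0; positivity
  have hk1 : (1 : ℝ) < k := by
    have : 0 ≤ s0 M K * C1 M K := mul_nonneg (by linarith) hC1
    linarith
  have hCne : C.Nonempty := by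
    rw [← Finset.card_pos, hCk]
    have : (0 : ℝ) < k := by linarith
    exact_mod_cast this
  have hθ0 := h.h0
  have hb := hom_bound h (by linarith) (by linarith) C hC hCne (r / (2 * M)) (M * r) (M ^ 2)
    (s0 M K) (by positivity) (fun x _ => ⟨hlo x, hup x⟩) (by
      intro y
      have h3 := (hcon y).le
      have h4 : M ^ 2 * σ ≤ M ^ 2 * (θ0 - θ2) :=
        mul_le_mul_of_nonneg_left (by rw [hσdef]; linarith) (by positivity)
      linarith) hs0 (by
      have e1 : (M * r) ^ 2 = M ^ 2 * σ := by rw [mul_pow, hr2]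
      have e2 : (r / (2 * M)) ^ 2 = σ / (4 * M ^ 2) := by rw [div_pow, hr2]; ring
      rw [e1, e2]
      unfold s0
      have e3 : 8 * M ^ 4 * (K + 1) * (K + M ^ 2) * (σ / (4 * M ^ 2)) =
          2 * (K + 1) * (K + M ^ 2) * (M ^ 2 * σ) := by
        field_simp
        ring
      rw [e3]
      apply mul_le_mul_of_nonneg_right _ (by positivity)
      have e4 : θ1 + 1 ≤ K + 1 := by linarith
      have e5 : θ1 + M ^ 2 ≤ K + M ^ 2 := by linarith
      have e6 : (θ1 + 1) * (θ1 + M ^ 2) ≤ (K + 1) * (K + M ^ 2) :=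
        mul_le_mul e4 e5 (by positivity) (by linarith)
      nlinarith)
  rw [hCk] at hb
  have h9 : ((k : ℝ) - 1) * σ ≤ (s0 M K * C1 M K) * σ := by
    calc ((k : ℝ) - 1) * σ ≤ ((k : ℝ) - 1) * (θ1 * σ) :=
          mul_le_mul_of_nonneg_left (by nlinarith) (by linarith)
      _ ≤ s0 M K * Fintype.card V := hb
      _ ≤ s0 M K * (C1 M K * σ) := mul_le_mul_of_nonneg_left hn (by linarith)
      _ = _ := by ring
  have h10 := le_of_mul_le_mul_right h9 hσ0
  linarith

end TS
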