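import Mathlib
import Pool.Agent.TS.Sparse

set_option autoImplicit false
set_option linter.unusedSectionVars false
set_option linter.unusedSimpArgs false
set_option linter.unusedVariables false

namespace TS

open Finset TE

variable {V : Type*} [Fintype V] [DecidableEq V]
variable {G : SimpleGraph V} [DecidableRel G.Adj] {T θ0 θ1 θ2 : ℝ} {α : V → ℝ}

lemma exists_nonadj (hreg : ¬ ∃ d, G.IsRegularOfDegree d) : ∃ x y, x ≠ y ∧ ¬ G.Adj x y := by
  by_contra hcon
  push Not at hcon
  apply hreg
  refine ⟨Fintype.card V - 1, fun x => ?_⟩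
  rw [← SimpleGraph.card_neighborFinset_eq_degree]
  have : G.neighborFinset x = Finset.univ.erase x := by
    ext y
    rw [SimpleGraph.mem_neighborFinset, Finset.mem_erase]
    constructor
    · intro h; exact ⟨h.ne', Finset.mem_univ _⟩
    · intro h; exact hcon x y (Ne.symm h.1)
  rw [this, Finset.card_erase_of_mem (Finset.mem_univ _), Finset.card_univ]

/-- test vector for two nonadjacent vertices -/
lemma pair_form (h : Dat G T θ0 θ1 θ2 α) {x y z : V} (hxy : x ≠ y) (hn : ¬ G.Adj x y)
    (hzx : z ≠ x) (hzy : z ≠ y) (τ : ℝ) :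
    0 ≤ θ1 * (1 + τ ^ 2 * (α y ^ 2 + α x ^ 2)) - 2 * (τ * (ad G z x * α y - ad G z y * α x))
      + α z ^ 2 / (θ0 - θ2) := by
  set f : V → ℝ := fun w => (if w = x then τ * α y else 0) - (if w = y then τ * α x else 0)
    with hf
  have hfz : f z = 0 := by rw [hf]; simp [hzx, hzy]
  have key := form_add h z f hfz
  have e1 : ∑ w, f w ^ 2 = τ ^ 2 * (α y ^ 2 + α x ^ 2) := by
    have : ∀ w, f w ^ 2 = (if w = x then (τ * α y) ^ 2 else 0)
        + (if w = y then (τ * α x) ^ 2 else 0) := by
      intro w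
      rw [hf]; simp only
      by_cases h1 : w = x
      · have h2 : w ≠ y := fun hh => hxy (h1.symm.trans hh)
        simp [h1, hxy]
      · by_cases h2 : w = y
        · simp [h2, Ne.symm hxy]
        · simp [h1, h2]
    rw [Finset.sum_congr rfl fun w _ => this w, Finset.sum_add_distrib]
    simp
    ring
  have e2 : ∑ w, ad G z w * f w = τ * (ad G z x * α y - ad G z y * α x) := by
    have : ∀ w, ad G z w * f w = (if w = x then ad G z w * (τ * α y) else 0)
        - (if w = y then ad G z w * (τ * α x) else 0) := by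
      intro w
      rw [hf]; simp only
      split_ifs <;> ring
    rw [Finset.sum_congr rfl fun w _ => this w, Finset.sum_sub_distrib]
    simp
    ring
  have e3 : ∑ w, α w * f w = 0 := by
    have : ∀ w, α w * f w = (if w = x then α w * (τ * α y) else 0)
        - (if w = y then α w * (τ * α x) else 0) := by
      intro w
      rw [hf]; simp only
      split_ifs <;> ring
    rw [Finset.sum_congr rfl fun w _ => this w, Finset.sum_sub_distrib]
    simp
    ring
  have e4 : qf G f = 0 := by
    apply qf_idp f {x, y}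
    · intro u hu v hv
      rw [Finset.mem_insert, Finset.mem_singleton] at hu hv
      rcases hu with rfl | rfl <;> rcases hv with rfl | rfl
      · simp
      · exact hn
      · exact fun hh => hn hh.symm
      · simp
    · intro w hw
      rw [Finset.mem_insert, Finset.mem_singleton] at hw
      push Not at hw
      rw [hf]; simp [hw.1, hw.2]
  rw [e1, e2, e3, e4, add_zero, sub_zero] at key
  exact key

lemma theta1_nonneg (h : Dat G T θ0 θ1 θ2 α) (hreg : ¬ ∃ d, G.IsRegularOfDegree d) : 0 ≤ θ1 := by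
  obtain ⟨x, y, hxy, hn⟩ := exists_nonadj hreg
  have hx := h.pos x
  have hy := h.pos y
  have key := form h (fun w => (if w = x then α y else 0) - (if w = y then α x else 0))
  have e1 : ∑ w, ((if w = x then α y else 0) - (if w = y then α x else 0)) ^ 2
      = α y ^ 2 + α x ^ 2 := by
    have : ∀ w, ((if w = x then α y else 0) - (if w = y then α x else 0)) ^ 2
        = (if w = x then (α y) ^ 2 else 0) + (if w = y then (α x) ^ 2 else 0) := by
      intro w
      by_cases h1 : w = x
      · simp [h1, hxy]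
      · by_cases h2 : w = y
        · simp [h2, Ne.symm hxy]
        · simp [h1, h2]
    rw [Finset.sum_congr rfl fun w _ => this w, Finset.sum_add_distrib]
    simp
  have e3 : ∑ w, α w * ((if w = x then α y else 0) - (if w = y then α x else 0)) = 0 := by
    have : ∀ w, α w * ((if w = x then α y else 0) - (if w = y then α x else 0))
        = (if w = x then α w * α y else 0) - (if w = y then α w * α x else 0) := by
      intro w
      split_ifs <;> ring
    rw [Finset.sum_congr rfl fun w _ => this w, Finset.sum_sub_distrib]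
    simp
    ring
  have e4 : qf G (fun w => (if w = x then α y else 0) - (if w = y then α x else 0)) = 0 := by
    apply qf_idp _ {x, y}
    · intro u hu v hv
      rw [Finset.mem_insert, Finset.mem_singleton] at hu hv
      rcases hu with rfl | rfl <;> rcases hv with rfl | rfl
      · simp
      · exact hn
      · exact fun hh => hn hh.symm
      · simp
    · intro w hw
      rw [Finset.mem_insert, Finset.mem_singleton] at hw
      push Not at hw
      simp [hw.1, hw.2]
  rw [e1, e3, e4] at key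
  by_contra hcon
  push Not at hcon
  have h3 : 0 < α y ^ 2 + α x ^ 2 := by positivity
  have h4 := mul_neg_of_neg_of_pos hcon h3
  have h5 : (0 : ℝ) ^ 2 / (θ0 - θ2) = 0 := by simp
  rw [h5] at key
  linarith

lemma exists_edge (h : Dat G T θ0 θ1 θ2 α) (hreg : ¬ ∃ d, G.IsRegularOfDegree d) :
    ∃ x y, G.Adj x y := by
  by_contra hcon
  push Not at hcon
  exact hreg (h.reg_of_const fun x y hxy => absurd hxy (hcon x y))

lemma theta2_neg (h : Dat G T θ0 θ1 θ2 α) (hreg : ¬ ∃ d, G.IsRegularOfDegree d) : θ2 < 0 := by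
  rcases (theta1_nonneg h hreg).lt_or_eq with h1 | h1
  · exact h.theta2_neg h1 (exists_edge h hreg)
  · have := h.h12; linarith

/-- two adjacent vertices with a common non-neighbour -/
lemma exists_co (h : Dat G T θ0 θ1 θ2 α) (hreg : ¬ ∃ d, G.IsRegularOfDegree d) (h1 : 0 < θ1) :
    ∃ x y z, G.Adj x y ∧ z ≠ x ∧ z ≠ y ∧ ¬ G.Adj z x ∧ ¬ G.Adj z y := by
  by_contra hcon
  push Not at hcon
  obtain ⟨x, z, hxz, hn⟩ := exists_nonadj hreg
  have tw : ∀ w, G.Adj x w ↔ G.Adj z w := by
    intro w
    constructor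
    · intro hw
      by_contra hzw
      by_cases hzw' : z = w
      · rw [hzw'] at hn; exact hn hw
      · exact hzw (hcon x w z hw (Ne.symm hxz) hzw' (fun hh => hn hh.symm))
    · intro hw
      by_contra hxw
      by_cases hxw' : x = w
      · rw [← hxw'] at hw; exact hn hw.symm
      · exact hxw (hcon z w x hw hxz hxw' hn)
  have hv : (fun w => (if w = x then (1 : ℝ) else 0) - (if w = z then 1 else 0)) ≠ 0 := by
    intro hh
    have := congrFun hh x
    simp [hxz] at this
  have hev := h.ev 0 _ hv (by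
    intro w
    rw [zero_mul]
    have : ∀ y, ad G w y * ((if y = x then (1 : ℝ) else 0) - (if y = z then 1 else 0))
        = (if y = x then ad G w y else 0) - (if y = z then ad G w y else 0) := by
      intro y; split_ifs <;> ring
    rw [Finset.sum_congr rfl fun y _ => this y, Finset.sum_sub_distrib]
    simp only [Finset.sum_ite_eq', Finset.mem_univ, if_true]
    rw [ad_symm w x, ad_symm w z]
    unfold ad
    by_cases hw : G.Adj x w
    · rw [if_pos hw, if_pos ((tw w).mp hw)]; ring
    · rw [if_neg hw, if_neg (fun hh => hw ((tw w).mpr hh))]; ring)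
  have h2 := theta2_neg h hreg
  have h0 := h.h0
  rcases hev with h3 | h3 | h3
  · linarith
  · linarith
  · linarith

lemma int_of_rat_sq {x : ℝ} (hq : x ∈ KQ) {m : ℤ} (hm : x ^ 2 = m) : ∃ k : ℤ, x = k := by
  apply rat_int x _ hq
  have : IsIntegral ℤ (x ^ 2) := by rw [hm]; exact isIntegral_algebraMap
  exact IsIntegral.of_pow (by norm_num) this

lemma int_sum (h : Dat G T θ0 θ1 θ2 α) (hreg : ¬ ∃ d, G.IsRegularOfDegree d) (h1 : 0 < θ1) :
    ∃ m : ℤ, θ1 + θ2 = m := by
  obtain ⟨x, y, z, hxy, hzx, hzy, hnx, hny⟩ := exists_co h hreg h1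
  have e1 := h.nadj z x hzx hnx
  have e2 := h.nadj z y hzy hny
  obtain ⟨mz, hmz⟩ := h.int_sq hreg z
  obtain ⟨mx, hmx⟩ := h.int_sq hreg x
  obtain ⟨my, hmy⟩ := h.int_sq hreg y
  have hz := h.pos z
  have e3 : α x * α y ∈ KQ := by
    have : α x * α y = ((cd G z x : ℝ) * (cd G z y : ℝ)) / (mz : ℝ) := by
      rw [e1, e2, ← hmz]
      field_simp
    rw [this]
    exact div_mem (mul_mem (natCast_mem _ _) (natCast_mem _ _)) (intCast_mem _ _)
  obtain ⟨k, hk⟩ := int_of_rat_sq e3 (m := mx * my) (by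
    push_cast; rw [← hmx, ← hmy]; ring)
  have e4 := h.adj x y hxy
  refine ⟨(cd G x y : ℤ) - k, ?_⟩
  push_cast
  rw [e4, ← hk]; ring

lemma int_mul (h : Dat G T θ0 θ1 θ2 α) (hreg : ¬ ∃ d, G.IsRegularOfDegree d) (h1 : 0 < θ1)
    (x y : V) : ∃ m : ℤ, α x * α y = m := by
  by_cases hxy : x = y
  · obtain ⟨m, hm⟩ := h.int_sq hreg x
    exact ⟨m, by rw [← hm, ← hxy]; ring⟩
  · by_cases hadj : G.Adj x y
    · obtain ⟨m, hm⟩ := int_sum h hreg h1
      refine ⟨(cd G x y : ℤ) - m, ?_⟩
      push_cast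
      rw [h.adj x y hadj, ← hm]; ring
    · exact ⟨(cd G x y : ℤ), by push_cast; rw [h.nadj x y hxy hadj]⟩

lemma th0_le (h : Dat G T θ0 θ1 θ2 α) : θ0 ≤ (Fintype.card V : ℝ) - 1 := by
  obtain ⟨x0⟩ := h.conn.nonempty
  obtain ⟨x, _, hx⟩ := Finset.exists_max_image (Finset.univ : Finset V) α ⟨x0, Finset.mem_univ _⟩
  have h1 := h.eig x
  have h2 : ∑ y, ad G x y * α y ≤ ∑ y, ad G x y * α x :=
    Finset.sum_le_sum fun y _ => mul_le_mul_of_nonneg_left (hx y (Finset.mem_univ _))
      (ad_nonneg G x y)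
  rw [← Finset.sum_mul, sum_ad, h1] at h2
  have h3 := le_of_mul_le_mul_right h2 (h.pos x)
  have h4 : G.degree x + 1 ≤ Fintype.card V := G.degree_lt_card_verts x
  have h5 : (G.degree x : ℝ) + 1 ≤ Fintype.card V := by exact_mod_cast h4
  linarith

/-- the trace of the projection onto the `θ2`-eigenspace is a natural number -/
lemma trace_nat (h : Dat G T θ0 θ1 θ2 α) :
    ∃ m : ℕ, ((Fintype.card V : ℝ) - 1) * θ1 + θ0 = (θ1 - θ2) * m := by
  have hθ02 : 0 < θ0 - θ2 := by linarith [h.h01, h.h12]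
  have hθ12 : 0 < θ1 - θ2 := by linarith [h.h12]
  set κ : ℝ := 1 / (θ0 - θ2) with hκ
  have hκ1 : κ * (θ0 - θ2) = 1 := by rw [hκ]; field_simp
  let f : (V → ℝ) →ₗ[ℝ] (V → ℝ) :=
    { toFun := fun c x => (θ1 * c x - ∑ y, ad G x y * c y + κ * (∑ z, α z * c z) * α x)
        / (θ1 - θ2)
      map_add' := by
        intro c d
        ext x
        simp only [Pi.add_apply, mul_add, Finset.sum_add_distrib]
        ring
      map_smul' := by
        intro r c
        ext x
        simp only [Pi.smul_apply, smul_eq_mul, RingHom.id_apply]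
        have e1 : ∑ y, ad G x y * (r * c y) = r * ∑ y, ad G x y * c y := by
          rw [Finset.mul_sum]; exact Finset.sum_congr rfl fun y _ => by ring
        have e2 : ∑ z, α z * (r * c z) = r * ∑ z, α z * c z := by
          rw [Finset.mul_sum]; exact Finset.sum_congr rfl fun y _ => by ring
        rw [e1, e2]; ring }
  have hfa : ∀ c x, f c x = (θ1 * c x - ∑ y, ad G x y * c y + κ * (∑ z, α z * c z) * α x)
        / (θ1 - θ2) := fun c x => rfl
  -- `A (f c) = θ2 f c`
  have hA : ∀ c x, ∑ y, ad G x y * f c y = θ2 * f c x := by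
    intro c x
    have h1 := h.op c x
    have h2 := h.eig x
    have h3 : ∑ y, ad G x y * f c y = (θ1 * ∑ y, ad G x y * c y
        - ∑ y, ad G x y * (∑ z, ad G y z * c z) + κ * (∑ z, α z * c z) * ∑ y, ad G x y * α y)
        / (θ1 - θ2) := by
      rw [Finset.mul_sum, Finset.mul_sum, ← Finset.sum_sub_distrib, ← Finset.sum_add_distrib,
        Finset.sum_div]
      refine Finset.sum_congr rfl fun y _ => ?_
      rw [hfa]
      ring
    rw [h3, h2, hfa]
    rw [div_eq_iff hθ12.ne']
    have e9 : θ2 * ((θ1 * c x - ∑ y, ad G x y * c y + κ * (∑ z, α z * c z) * α x) / (θ1 - θ2))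
        * (θ1 - θ2) = θ2 * (θ1 * c x - ∑ y, ad G x y * c y + κ * (∑ z, α z * c z) * α x) := by
      field_simp
    rw [e9]
    linear_combination (-1 : ℝ) * h1 + α x * (∑ z, α z * c z) * hκ1
  have hα0 : ∀ c, ∑ x, α x * f c x = 0 := by
    intro c
    have h1 : ∑ x, f c x * ∑ y, ad G x y * α y = θ0 * ∑ x, α x * f c x := by
      rw [Finset.mul_sum]
      refine Finset.sum_congr rfl fun x _ => ?_
      rw [h.eig x]; ring
    have h2 : ∑ x, f c x * ∑ y, ad G x y * α y = θ2 * ∑ x, α x * f c x := by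
      rw [ad_adjoint, Finset.mul_sum]
      refine Finset.sum_congr rfl fun x _ => ?_
      rw [hA c x]; ring
    have h3 : (θ0 - θ2) * ∑ x, α x * f c x = 0 := by linarith
    exact (mul_eq_zero.mp h3).resolve_left hθ02.ne'
  have hidem : IsIdempotentElem f := by
    apply LinearMap.ext
    intro c
    ext x
    have : (f * f) c x = f (f c) x := rfl
    rw [this, hfa (f c) x, hA c x, hα0 c]
    rw [mul_zero, zero_mul, add_zero, div_eq_iff hθ12.ne']
    ring
  have htr := ((LinearMap.isProj_range_iff_isIdempotentElem f).mpr hidem).trace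
  have hmt : LinearMap.trace ℝ (V → ℝ) f = ∑ x, f (Pi.single x 1) x := by
    rw [LinearMap.trace_eq_matrix_trace ℝ (Pi.basisFun ℝ V) f, Matrix.trace]
    refine Finset.sum_congr rfl fun x _ => ?_
    rw [Matrix.diag_apply, LinearMap.toMatrix_apply]
    simp
  have hval : ∑ x, f (Pi.single x 1) x =
      (((Fintype.card V : ℝ) - 1) * θ1 + θ0) / (θ1 - θ2) := by
    have e1 : ∀ x : V, f (Pi.single x 1) x = θ1 / (θ1 - θ2) + κ / (θ1 - θ2) * α x ^ 2 := by
      intro x
      rw [hfa]
      have a1 : ∑ y, ad G x y * (Pi.single x (1 : ℝ) : V → ℝ) y = 0 := by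
        refine Finset.sum_eq_zero fun y _ => ?_
        by_cases hy : y = x
        · rw [hy]; unfold ad; simp
        · rw [Pi.single_eq_of_ne hy]; ring
      have a2 : ∑ z, α z * (Pi.single x (1 : ℝ) : V → ℝ) z = α x := by
        rw [Finset.sum_eq_single x]
        · simp
        · intro z _ hz; rw [Pi.single_eq_of_ne hz]; ring
        · intro hh; exact absurd (Finset.mem_univ _) hh
      rw [a1, a2]
      simp only [Pi.single_eq_same]
      ring
    rw [Finset.sum_congr rfl fun x _ => e1 x, Finset.sum_add_distrib, Finset.sum_const,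
      Finset.card_univ, nsmul_eq_mul, ← Finset.mul_sum, norm_sq h]
    field_simp
    linear_combination (θ0 - θ1) * hκ1
  rw [hmt, hval] at htr
  refine ⟨Module.finrank ℝ (LinearMap.range f), ?_⟩
  rw [div_eq_iff hθ12.ne'] at htr
  linarith

/-- `θ1` is at least 1 as soon as it is positive and `-θ2` is large -/
lemma theta1_ge_one (h : Dat G T θ0 θ1 θ2 α) (hreg : ¬ ∃ d, G.IsRegularOfDegree d) (h1 : 0 < θ1)
    (hu : 2 < -(θ1 + θ2)) : 1 ≤ θ1 := by
  obtain ⟨ms, hms⟩ := int_sum h hreg h1
  obtain ⟨mt, hmt⟩ := h.int_tau hreg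
  obtain ⟨m, hm⟩ := trace_nat h
  have hns := norm_sq h
  have hth := th0_le h
  have hint : ∃ w : ℤ, ∑ x, α x ^ 2 = w := by
    choose g hg using fun x => h.int_sq hreg x
    refine ⟨∑ x, g x, ?_⟩
    push_cast
    exact Finset.sum_congr rfl fun x _ => hg x
  obtain ⟨w, hw⟩ := hint
  set n : ℝ := (Fintype.card V : ℝ) with hn
  set δ := θ1 - θ2 with hδ
  have hδ2 : δ ^ 2 = ((ms ^ 2 - 4 * mt : ℤ) : ℝ) := by
    push_cast; rw [← hms, ← hmt, hδ]; ring
  have hθ1 : θ1 = (δ + (ms : ℝ)) / 2 := by rw [← hms, hδ]; ring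
  -- θ0 = p + q δ
  set q : ℝ := (m : ℝ) - (n - 1) / 2 with hq
  set p : ℝ := -((n - 1) * ms) / 2 with hp
  have hθ0 : θ0 = p + q * δ := by
    have e1 : (n - 1) * ((δ + (ms : ℝ)) / 2) + θ0 = δ * m := by rw [← hθ1]; exact hm
    rw [hp, hq]; linarith
  have hw2 : θ0 ^ 2 - ms * θ0 + mt = w := by
    rw [← hw, hns, ← hms, ← hmt]; ring
  have hnpos : 0 < n := by
    obtain ⟨x0⟩ := h.conn.nonempty
    rw [hn]
    exact_mod_cast Fintype.card_pos_iff.mpr ⟨x0⟩
  have hnK : n ∈ KQ := natCast_mem _ _
  have hmK : (m : ℝ) ∈ KQ := natCast_mem _ _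
  have hmsK : (ms : ℝ) ∈ KQ := intCast_mem _ _
  have hmtK : (mt : ℝ) ∈ KQ := intCast_mem _ _
  have hwK : (w : ℝ) ∈ KQ := intCast_mem _ _
  have h2K : (2 : ℝ) ∈ KQ := by exact_mod_cast natCast_mem KQ 2
  have h1K : (1 : ℝ) ∈ KQ := one_mem _
  have hqK : q ∈ KQ := sub_mem hmK (div_mem (sub_mem hnK h1K) h2K)
  have hpK : p ∈ KQ := div_mem (neg_mem (mul_mem (sub_mem hnK h1K) hmsK)) h2K
  have hδ2K : δ ^ 2 ∈ KQ := by rw [hδ2]; exact intCast_mem _ _
  have hms2 : (ms : ℝ) < -2 := by rw [← hms]; linarith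
  have hδK : δ ∈ KQ := by
    by_contra hcon
    have e1 : q * (2 * p - ms) * δ = w - mt - p ^ 2 - q ^ 2 * δ ^ 2 + ms * p := by
      have := hw2
      rw [hθ0] at this
      linear_combination this
    have e2 : q * (2 * p - ms) * δ ∈ KQ := by
      rw [e1]
      exact add_mem (sub_mem (sub_mem (sub_mem hwK hmtK) (pow_mem hpK 2))
        (mul_mem (pow_mem hqK 2) hδ2K)) (mul_mem hmsK hpK)
    have e3 : q * (2 * p - ms) ∈ KQ := mul_mem hqK (sub_mem (mul_mem h2K hpK) hmsK)
    have e4 : q * (2 * p - ms) = 0 := by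
      by_contra hne
      apply hcon
      have : δ = (q * (2 * p - ms) * δ) / (q * (2 * p - ms)) :=
        (mul_div_cancel_left₀ δ hne).symm
      rw [this]; exact div_mem e2 e3
    have e5 : 2 * p - ms = -(n * ms) := by rw [hp]; ring
    have e6 : 2 * p - ms ≠ 0 := by
      rw [e5]
      have : n * ms < 0 := mul_neg_of_pos_of_neg hnpos (by linarith)
      linarith
    have e7 : q = 0 := (mul_eq_zero.mp e4).resolve_right e6
    rw [e7, zero_mul, add_zero, hp] at hθ0
    have e8 : 0 < θ0 := h.h0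
    nlinarith
  have hθ1K : θ1 ∈ KQ := by rw [hθ1]; exact div_mem (add_mem hδK hmsK) h2K
  have hint1 : IsIntegral ℤ θ1 := by
    refine ⟨Polynomial.X ^ 2 - Polynomial.C ms * Polynomial.X + Polynomial.C mt, ?_, ?_⟩
    · have : (Polynomial.X ^ 2 - Polynomial.C ms * Polynomial.X + Polynomial.C mt :
          Polynomial ℤ) = Polynomial.X ^ 2 + (-(Polynomial.C ms * Polynomial.X)
            + Polynomial.C mt) := by ring
      rw [this]
      apply Polynomial.monic_X_pow_add
      have hd : (-(Polynomial.C ms * Polynomial.X) + Polynomial.C mt : Polynomial ℤ) =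
          Polynomial.C (-ms) * Polynomial.X + Polynomial.C mt := by simp
      rw [hd]
      exact lt_of_le_of_lt Polynomial.degree_linear_le (by norm_num)
    · simp only [Polynomial.eval₂_add, Polynomial.eval₂_sub, Polynomial.eval₂_mul,
        Polynomial.eval₂_pow, Polynomial.eval₂_X, Polynomial.eval₂_C]
      simp only [eq_intCast]
      rw [← hms, ← hmt]; ring
  obtain ⟨k, hk⟩ := rat_int θ1 hint1 hθ1K
  rw [hk] at h1 ⊢
  have : 0 < k := by exact_mod_cast h1
  exact_mod_cast this

end TS
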