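import Mathlib
import Pool.Agent.TS.Alg

set_option autoImplicit false
set_option linter.unusedSectionVars false
set_option linter.unusedSimpArgs false
set_option linter.unusedVariables false

namespace TS

open Finset TE

variable {V : Type*} [Fintype V] [DecidableEq V]
variable {G : SimpleGraph V} [DecidableRel G.Adj] {T θ0 θ1 θ2 : ℝ} {α : V → ℝ}

lemma twins0 (h : Dat G T θ0 θ1 θ2 α) (h0 : θ1 = 0) {x y : V} (hxy : x ≠ y)
    (hn : ¬ G.Adj x y) (z : V) : ad G z x * α y = ad G z y * α x := by
  by_cases hzx : z = x
  · rw [hzx]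
    have e1 : ad G x x = 0 := by unfold ad; simp
    have e2 : ad G x y = 0 := by unfold ad; rw [if_neg hn]
    rw [e1, e2]; ring
  by_cases hzy : z = y
  · rw [hzy]
    have e1 : ad G y y = 0 := by unfold ad; simp
    have e2 : ad G y x = 0 := by unfold ad; rw [if_neg (fun hh => hn hh.symm)]
    rw [e1, e2]; ring
  by_contra hne
  have hL : ad G z x * α y - ad G z y * α x ≠ 0 := sub_ne_zero.mpr hne
  set L := ad G z x * α y - ad G z y * α x with hLdef
  have hθ02 : 0 < θ0 - θ2 := by linarith [h.h01, h.h12]
  set c := α z ^ 2 / (θ0 - θ2) with hc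
  have hc0 : 0 ≤ c := by positivity
  have key := pair_form h hxy hn hzx hzy ((c + 1) / (2 * L))
  rw [h0, zero_mul, zero_sub, ← hLdef, ← hc] at key
  have e1 : 2 * ((c + 1) / (2 * L) * L) = c + 1 := by field_simp
  rw [e1] at key
  linarith

lemma twins (h : Dat G T θ0 θ1 θ2 α) (h0 : θ1 = 0) {x y : V} (hxy : x ≠ y)
    (hn : ¬ G.Adj x y) (z : V) : G.Adj x z ↔ G.Adj y z := by
  have h1 := twins0 h h0 hxy hn z
  have hx := h.pos x
  have hy := h.pos y
  unfold ad at h1
  constructor
  · intro hh
    by_contra hc
    rw [if_pos hh.symm, if_neg (fun h' => hc h'.symm)] at h1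
    linarith
  · intro hh
    by_contra hc
    rw [if_neg (fun h' => hc h'.symm), if_pos hh.symm] at h1
    linarith

/-- the relation for adjacent vertices when `θ1 = 0` -/
lemma star_rel (h : Dat G T θ0 θ1 θ2 α) (h0 : θ1 = 0) {x y : V} (hxy : G.Adj x y) :
    α x ^ 2 + α y ^ 2 = Fintype.card V + α x * α y + θ2 := by
  have hun : G.neighborFinset x ∪ G.neighborFinset y = Finset.univ := by
    ext z
    rw [Finset.mem_union, SimpleGraph.mem_neighborFinset, SimpleGraph.mem_neighborFinset]
    simp only [Finset.mem_univ, iff_true]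
    by_cases hzx : G.Adj x z
    · left; exact hzx
    · right
      by_cases hxz : x = z
      · rw [← hxz]; exact hxy.symm
      · have := (twins h h0 hxz hzx y).mp hxy
        exact this.symm
  have hcard := Finset.card_union_add_card_inter (G.neighborFinset x) (G.neighborFinset y)
  rw [hun, Finset.card_univ, SimpleGraph.card_neighborFinset_eq_degree,
    SimpleGraph.card_neighborFinset_eq_degree] at hcard
  have h1 : (Fintype.card V : ℝ) + cd G x y = G.degree x + G.degree y := by
    have : (Fintype.card V + cd G x y : ℕ) = G.degree x + G.degree y := hcard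
    exact_mod_cast this
  rw [h.adj x y hxy, h.diag x, h.diag y, h0] at h1
  linarith

theorem bip (h : Dat G T θ0 θ1 θ2 α) (hreg : ¬ ∃ d, G.IsRegularOfDegree d) (h0 : θ1 = 0) :
    ∃ s : Set V, ∀ u v, G.Adj u v ↔ ¬ (u ∈ s ↔ v ∈ s) := by
  have hex : ∃ x y, G.Adj x y ∧ α x ≠ α y := by
    by_contra hcon
    push Not at hcon
    exact hreg (h.reg_of_const hcon)
  obtain ⟨x, y, hxy, hne⟩ := hex
  have hno : ∀ z, G.Adj x z → G.Adj y z → False := by
    intro z hxz hyz
    have e1 := star_rel h h0 hxy
    have e2 := star_rel h h0 hxz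
    have e3 := star_rel h h0 hyz
    have hx := h.pos x
    have hy := h.pos y
    have hz := h.pos z
    have f1 : (α y - α z) * (α y + α z - α x) = 0 := by linear_combination e1 - e2
    have f2 : (α x - α y) * (α x + α y - α z) = 0 := by linear_combination e2 - e3
    have f3 : α z = α x + α y := by
      rcases mul_eq_zero.mp f2 with h' | h'
      · exact absurd (by linarith) hne
      · linarith
    rcases mul_eq_zero.mp f1 with h' | h'
    · linarith
    · linarith
  have hor : ∀ z, G.Adj x z ∨ G.Adj y z := by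
    intro z
    by_cases hzx : G.Adj x z
    · left; exact hzx
    · right
      by_cases hxz : x = z
      · rw [← hxz]; exact hxy.symm
      · exact ((twins h h0 hxz hzx y).mp hxy).symm
  refine ⟨{v | G.Adj x v}, fun u v => ?_⟩
  change G.Adj u v ↔ ¬ (G.Adj x u ↔ G.Adj x v)
  by_cases hu : G.Adj x u
  · have hyu : ¬ G.Adj y u := fun hh => hno u hu hh
    have e1 : G.Adj u v ↔ G.Adj y v := by
      by_cases hyu' : y = u
      · rw [hyu']
      · exact (twins h h0 hyu' hyu v).symm
    rw [e1]
    constructor
    · intro hh h2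
      exact hno v (h2.mp hu) hh
    · intro hh
      rcases hor v with h2 | h2
      · exact absurd ⟨fun _ => h2, fun _ => hu⟩ hh
      · exact h2
  · have e1 : G.Adj u v ↔ G.Adj x v := by
      by_cases hxu : x = u
      · rw [hxu]
      · exact (twins h h0 hxu hu v).symm
    rw [e1]
    constructor
    · intro hh h2
      exact hu (h2.mpr hh)
    · intro hh
      by_contra h3
      exact hh ⟨fun h4 => absurd h4 hu, fun h4 => absurd h4 h3⟩

end TS
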