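import Mathlib
import Pool.Agent.TS.Sparse

set_option autoImplicit false
set_option linter.unusedSectionVars false
set_option linter.unusedSimpArgs false
set_option linter.unusedVariables false

namespace TS

open Finset TE

variable {V : Type*} [Fintype V] [DecidableEq V]

/-- vertices with a large Perron weight -/
noncomputable def HB (α : V → ℝ) (b : ℝ) : Finset V := Finset.univ.filter (fun x => b < 2 * α x)
/-- vertices with a small Perron weight -/
noncomputable def SB (α : V → ℝ) (b : ℝ) : Finset V := Finset.univ.filter (fun x => ¬ (b < 2 * α x))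

/-- the context of the dense step -/
structure Dn (G : SimpleGraph V) [DecidableRel G.Adj] (T θ0 θ1 θ2 : ℝ) (α : V → ℝ)
    (K b σ W : ℝ) (s1 : ℕ) : Prop where
  dat : Dat G T θ0 θ1 θ2 α
  hσ : σ = -θ2
  hW : W = (θ1 + 1) * σ
  K1 : 1 ≤ K
  h1 : 1 ≤ θ1
  h1K : θ1 ≤ K
  σ8 : 8 ≤ σ
  bpos : 0 < b
  bmax : ∀ x, α x ≤ b
  xm : ∃ x, α x = b
  b40 : 40 * W ≤ b ^ 2
  c2 : 8 * W ^ 2 ≤ b ^ 2 * σ
  c2' : 2 * K < σ
  c3 : 64 * (s1 : ℝ) ^ 2 * W ^ 2 ≤ b ^ 4
  c3' : K ^ 2 + 16 * K + 2 ≤ s1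
  c4 : (s1 : ℝ) ≤ σ
  c4' : 2 * s1 * (1 + 2 * K) ≤ σ

variable {G : SimpleGraph V} [DecidableRel G.Adj] {T θ0 θ1 θ2 : ℝ} {α : V → ℝ}
variable {K b σ W : ℝ} {s1 : ℕ}

lemma mem_HB (x : V) : x ∈ HB α b ↔ b < 2 * α x := by unfold HB; simp

lemma mem_SB (x : V) : x ∈ SB α b ↔ 2 * α x ≤ b := by unfold SB; simp

lemma sum_HS (f : V → ℝ) : ∑ x ∈ HB α b, f x + ∑ x ∈ SB α b, f x = ∑ x, f x := by
  unfold HB SB
  exact Finset.sum_filter_add_sum_filter_not _ _ _

lemma Dn.W0 (D : Dn G T θ0 θ1 θ2 α K b σ W s1) : 0 < W ∧ σ ≤ W ∧ W ≤ (K + 1) * σ := by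
  have h1 := D.h1
  have h2 := D.h1K
  have h3 := D.σ8
  rw [D.hW]
  refine ⟨by nlinarith, by nlinarith, by nlinarith⟩

lemma Dn.gapb (D : Dn G T θ0 θ1 θ2 α K b σ W s1) (x : V) : α x * (b - α x) ≤ W := by
  obtain ⟨y, hy⟩ := D.xm
  have h1 := gap D.dat (by linarith [D.h1]) (by linarith [D.σ8, D.hσ]) x y
  rw [hy, ← D.hσ, ← D.hW] at h1
  exact h1

lemma Dn.Hlo (D : Dn G T θ0 θ1 θ2 α K b σ W s1) {x : V} (hx : x ∈ HB α b) :
    b * (b - α x) ≤ 2 * W := by
  have h1 := D.gapb x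
  rw [mem_HB] at hx
  have h2 := D.bmax x
  nlinarith

lemma Dn.Sup (D : Dn G T θ0 θ1 θ2 α K b σ W s1) {x : V} (hx : x ∈ SB α b) :
    b * α x ≤ 2 * W := by
  have h1 := D.gapb x
  rw [mem_SB] at hx
  have h2 := D.dat.pos x
  nlinarith

lemma Dn.Scoc (D : Dn G T θ0 θ1 θ2 α K b σ W s1) :
    ∀ u ∈ SB α b, ∀ v ∈ SB α b, ¬ G.Adj u v := by
  intro u hu v hv hadj
  have h1 := adj_ge D.dat u v hadj
  have h2 := D.Sup hu
  have h3 := D.Sup hv
  have h4 := D.dat.pos u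
  have h5 := D.dat.pos v
  have hW := D.W0
  have h6 : (b * α u) * (b * α v) ≤ (2 * W) * (2 * W) :=
    mul_le_mul h2 h3 (mul_pos D.bpos h5).le (by linarith [hW.1])
  have h7 := D.c2
  have h8 := D.c2'
  have h9 := D.h1K
  have hb2 : 0 < b ^ 2 := by have := D.bpos; positivity
  rw [← D.hσ] at h1
  have h10 : b ^ 2 * (σ - θ1) ≤ b ^ 2 * (α u * α v) := mul_le_mul_of_nonneg_left h1 hb2.le
  have h11 : b ^ 2 * (σ / 2) < b ^ 2 * (σ - θ1) :=
    mul_lt_mul_of_pos_left (by linarith) hb2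
  nlinarith

lemma Dn.nbS (D : Dn G T θ0 θ1 θ2 α K b σ W s1) {x : V} (hx : x ∈ SB α b) {y : V}
    (hxy : G.Adj x y) : y ∈ HB α b := by
  by_contra hcon
  have : y ∈ SB α b := by
    rw [mem_SB]; rw [mem_HB] at hcon; linarith
  exact D.Scoc x hx y this hxy

lemma Dn.th0_up (D : Dn G T θ0 θ1 θ2 α K b σ W s1) : θ0 ≤ b ^ 2 + θ1 * σ := by
  obtain ⟨x, hx⟩ := D.xm
  have h1 := D.dat.eig x
  have h2 : ∑ y, ad G x y * α y ≤ ∑ y, ad G x y * b :=
    Finset.sum_le_sum fun y _ => mul_le_mul_of_nonneg_left (D.bmax y) (ad_nonneg G x y)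
  rw [← Finset.sum_mul, sum_ad, h1, deg_eq D.dat x, hx, ← D.hσ] at h2
  exact le_of_mul_le_mul_right h2 D.bpos

lemma Dn.th0_lo (D : Dn G T θ0 θ1 θ2 α K b σ W s1) : b ^ 2 ≤ 8 * θ0 := by
  have hb := D.bpos
  have hW := D.W0
  have h1 := D.h1
  have hσ := D.σ8
  by_cases hS : ∃ x, x ∈ SB α b
  · obtain ⟨x, hx⟩ := hS
    have e1 := D.dat.eig x
    have e2 : ∑ y, ad G x y * (b / 2) ≤ ∑ y, ad G x y * α y := by
      refine Finset.sum_le_sum fun y _ => ?_
      by_cases hxy : G.Adj x y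
      · have := D.nbS hx hxy
        rw [mem_HB] at this
        exact mul_le_mul_of_nonneg_left (by linarith) (ad_nonneg G x y)
      · unfold ad; rw [if_neg hxy]; simp
    rw [← Finset.sum_mul, sum_ad, e1, deg_eq D.dat x, ← D.hσ] at e2
    have e3 := D.Sup hx
    have e4 := D.dat.pos x
    have hθ0 := D.dat.h0
    -- θ1 σ b/2 ≤ θ0 α_x ; b α_x ≤ 2 (θ1+1) σ
    have e5 : θ1 * σ * (b / 2) ≤ θ0 * α x := by nlinarith [sq_nonneg (α x)]
    have e6 : θ1 * σ * (b ^ 2 / 2) ≤ θ0 * (2 * W) := by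
      calc θ1 * σ * (b ^ 2 / 2) = b * (θ1 * σ * (b / 2)) := by ring
        _ ≤ b * (θ0 * α x) := mul_le_mul_of_nonneg_left e5 hb.le
        _ = θ0 * (b * α x) := by ring
        _ ≤ θ0 * (2 * W) := mul_le_mul_of_nonneg_left e3 hθ0.le
    rw [D.hW] at e6
    have e7 : θ1 * (b ^ 2 / 2) ≤ θ0 * (2 * (θ1 + 1)) := by
      have hσ0 : 0 < σ := by linarith
      have : (θ1 * (b ^ 2 / 2)) * σ ≤ (θ0 * (2 * (θ1 + 1))) * σ := by
        calc _ = θ1 * σ * (b ^ 2 / 2) := by ring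
          _ ≤ _ := e6
          _ = _ := by ring
      exact le_of_mul_le_mul_right this hσ0
    nlinarith
  · push Not at hS
    obtain ⟨x, hx⟩ := D.xm
    have e1 := D.dat.eig x
    have e2 : ∑ y, ad G x y * (b / 2) ≤ ∑ y, ad G x y * α y := by
      refine Finset.sum_le_sum fun y _ => ?_
      have h3 := hS y
      rw [mem_SB] at h3
      push Not at h3
      exact mul_le_mul_of_nonneg_left (by linarith) (ad_nonneg G x y)
    rw [← Finset.sum_mul, sum_ad, e1, deg_eq D.dat x, hx, ← D.hσ] at e2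
    have e3 : (b ^ 2 + θ1 * σ) / 2 ≤ θ0 := by
      have : ((b ^ 2 + θ1 * σ) / 2) * b ≤ θ0 * b := by
        calc _ = (b ^ 2 + θ1 * σ) * (b / 2) := by ring
          _ ≤ _ := e2
      exact le_of_mul_le_mul_right this hb
    nlinarith

lemma Dn.eta (D : Dn G T θ0 θ1 θ2 α K b σ W s1) (y : V) : α y ^ 2 ≤ 8 * (θ0 - θ2) := by
  have h1 := D.th0_lo
  have h2 := D.bmax y
  have h3 := D.dat.pos y
  have h4 := D.σ8
  have h5 := D.hσ
  nlinarith

/-- few neighbours in the small part -/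
lemma Dn.star (D : Dn G T θ0 θ1 θ2 α K b σ W s1) (y : V) : dd G (SB α b) y ≤ s1 := by
  by_contra hcon
  push Not at hcon
  rw [dd_eq] at hcon
  have hcard : s1 ≤ ((SB α b).filter (fun x => G.Adj y x)).card := by
    have : (s1 : ℝ) ≤ (((SB α b).filter (fun x => G.Adj y x)).card : ℝ) := hcon.le
    exact_mod_cast this
  obtain ⟨X, hX, hXc⟩ := Finset.exists_subset_card_eq hcard
  have hXS : ∀ x ∈ X, x ∈ SB α b ∧ G.Adj y x := fun x hx => Finset.mem_filter.mp (hX hx)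
  have h1 := D.h1
  have hb := D.bpos
  have hW := D.W0
  have hθ0 := D.dat.h0
  have hσ := D.σ8
  have hθ02 : 0 < θ0 - θ2 := by have := D.hσ; linarith
  have hyX : y ∉ X := fun hh => (hXS y hh).2.ne rfl
  have key := form_add D.dat y (fun z => if z ∈ X then 1 / θ1 else 0) (if_neg hyX)
  have e1 : ∑ x : V, (if x ∈ X then 1 / θ1 else 0) ^ 2 = s1 / θ1 ^ 2 := by
    have : ∀ x : V, (if x ∈ X then 1 / θ1 else 0) ^ 2 = if x ∈ X then (1 / θ1) ^ 2 else 0 := by
      intro x; split_ifs <;> ring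
    rw [Finset.sum_congr rfl fun x _ => this x, Finset.sum_ite_mem, Finset.univ_inter,
      Finset.sum_const, hXc, nsmul_eq_mul]
    ring
  have e2 : ∑ z, ad G y z * (if z ∈ X then 1 / θ1 else 0) = s1 / θ1 := by
    have : ∀ z, ad G y z * (if z ∈ X then 1 / θ1 else 0) = if z ∈ X then 1 / θ1 else 0 := by
      intro z
      split_ifs with hz
      · unfold ad; rw [if_pos (hXS z hz).2]; ring
      · ring
    rw [Finset.sum_congr rfl fun x _ => this x, Finset.sum_ite_mem, Finset.univ_inter,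
      Finset.sum_const, hXc, nsmul_eq_mul]
    ring
  have e3 : qf G (fun z => if z ∈ X then 1 / θ1 else 0) = 0 := by
    apply qf_idp _ X
    · intro u hu v hv; exact D.Scoc u (hXS u hu).1 v (hXS v hv).1
    · intro x hx; simp [hx]
  have e4 : ∑ x, α x * (if x ∈ X then 1 / θ1 else 0) = (∑ x ∈ X, α x) / θ1 := by
    have : ∀ x, α x * (if x ∈ X then 1 / θ1 else 0) = if x ∈ X then α x / θ1 else 0 := by
      intro x; split_ifs <;> ring
    rw [Finset.sum_congr rfl fun x _ => this x, Finset.sum_ite_mem, Finset.univ_inter,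
      Finset.sum_div]
  rw [e1, e2, e3, e4] at key
  set A := ∑ x ∈ X, α x with hA
  have hA0 : 0 ≤ A := Finset.sum_nonneg fun x _ => (D.dat.pos x).le
  have hAb : b * A ≤ s1 * (2 * W) := by
    rw [hA, Finset.mul_sum]
    calc ∑ x ∈ X, b * α x ≤ ∑ _x ∈ X, 2 * W :=
          Finset.sum_le_sum fun x hx => D.Sup (hXS x hx).1
      _ = s1 * (2 * W) := by rw [Finset.sum_const, hXc, nsmul_eq_mul]
  have hη := D.eta y
  have hlo := D.th0_lo
  have hc3 := D.c3
  -- A² ≤ (θ0 - θ2) / 2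
  have hb2 : 0 < b ^ 2 := by positivity
  have hA2 : 2 * A ^ 2 ≤ θ0 - θ2 := by
    have f1 : b ^ 2 * A ^ 2 ≤ s1 ^ 2 * (4 * W ^ 2) := by
      calc b ^ 2 * A ^ 2 = (b * A) ^ 2 := by ring
        _ ≤ (s1 * (2 * W)) ^ 2 := pow_le_pow_left₀ (by positivity) hAb 2
        _ = _ := by ring
    have f2 : b ^ 2 * (16 * A ^ 2) ≤ b ^ 2 * b ^ 2 := by nlinarith
    have f3 := le_of_mul_le_mul_left f2 hb2
    have := D.hσ
    nlinarith
  have hB : (α y + A / θ1) ^ 2 / (θ0 - θ2) ≤ 16 + 1 / θ1 := by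
    rw [div_le_iff₀ hθ02]
    have f1 : (α y + A / θ1) ^ 2 ≤ 2 * α y ^ 2 + 2 * (A / θ1) ^ 2 := by
      nlinarith [sq_nonneg (α y - A / θ1)]
    have f2 : 2 * (A / θ1) ^ 2 ≤ (1 / θ1) * (θ0 - θ2) := by
      rw [div_pow]
      have g1 : A ^ 2 / θ1 ^ 2 ≤ A ^ 2 / θ1 := by
        apply div_le_div_of_nonneg_left (sq_nonneg _) (by linarith)
        nlinarith
      have g2 : 2 * (A ^ 2 / θ1) ≤ (1 / θ1) * (θ0 - θ2) := by
        have : 2 * (A ^ 2 / θ1) = (1 / θ1) * (2 * A ^ 2) := by ring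
        rw [this]
        exact mul_le_mul_of_nonneg_left hA2 (by positivity)
      linarith
    nlinarith
  have hθ1 : 0 < θ1 := by linarith
  have k1 : 0 ≤ θ1 * (1 + s1 / θ1 ^ 2) - 2 * (s1 / θ1) + (16 + 1 / θ1) := by linarith
  have k2 : θ1 * (1 + s1 / θ1 ^ 2) - 2 * (s1 / θ1) + (16 + 1 / θ1)
      = (θ1 ^ 2 + 16 * θ1 + 1 - s1) / θ1 := by
    field_simp
    ring
  rw [k2] at k1
  have k3 : 0 ≤ θ1 ^ 2 + 16 * θ1 + 1 - s1 := by
    by_contra hc
    push Not at hc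
    have := div_neg_of_neg_of_pos hc hθ1
    linarith
  have k4 := D.c3'
  have k5 := D.h1K
  nlinarith

lemma dd_HS (y : V) : dd G (HB α b) y + dd G (SB α b) y = G.degree y := by
  unfold dd
  rw [sum_HS (fun x => ad G x y), ← sum_ad]
  exact Finset.sum_congr rfl fun x _ => ad_symm x y

lemma Dn.xmH (D : Dn G T θ0 θ1 θ2 α K b σ W s1) {x : V} (hx : α x = b) : x ∈ HB α b := by
  rw [mem_HB, hx]; linarith [D.bpos]

lemma Dn.sq_lo (D : Dn G T θ0 θ1 θ2 α K b σ W s1) {y : V} (hy : y ∈ HB α b) :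
    b ^ 2 - 4 * W ≤ α y ^ 2 := by
  have h1 := D.Hlo hy
  have h2 := D.bmax y
  have h3 := D.dat.pos y
  nlinarith

lemma Dn.ddH_lo (D : Dn G T θ0 θ1 θ2 α K b σ W s1) {y : V} (hy : y ∈ HB α b) :
    b ^ 2 - 4 * W ≤ dd G (HB α b) y := by
  have h1 := dd_HS (G := G) (α := α) (b := b) y
  have h2 := D.star y
  have h3 := D.sq_lo hy
  have h4 := deg_eq D.dat y
  have h5 := D.c4
  have h6 := D.h1
  have h7 := D.σ8
  rw [← D.hσ] at h4
  nlinarith

/-- sharper lower bound for the largest eigenvalue -/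
lemma Dn.th0_lo2 (D : Dn G T θ0 θ1 θ2 α K b σ W s1) : b ^ 2 - 2 * W ≤ θ0 := by
  obtain ⟨x, hx⟩ := D.xm
  have hxH := D.xmH hx
  have e1 := D.dat.eig x
  have hb := D.bpos
  have e2 : (b ^ 2 - 2 * W) * dd G (HB α b) x ≤ b * ∑ y, ad G x y * α y := by
    rw [← sum_HS (α := α) (b := b) (fun y => ad G x y * α y)]
    have f1 : 0 ≤ ∑ y ∈ SB α b, ad G x y * α y :=
      Finset.sum_nonneg fun y _ => mul_nonneg (ad_nonneg G x y) (D.dat.pos y).le
    have f2 : (b ^ 2 - 2 * W) * dd G (HB α b) x ≤ b * ∑ y ∈ HB α b, ad G x y * α y := by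
      unfold dd
      rw [Finset.mul_sum, Finset.mul_sum]
      refine Finset.sum_le_sum fun y hy => ?_
      have g1 := D.Hlo hy
      have g2 := ad_nonneg G x y
      rw [ad_symm y x]
      have : (b ^ 2 - 2 * W) * ad G x y ≤ (b * α y) * ad G x y :=
        mul_le_mul_of_nonneg_right (by nlinarith) g2
      nlinarith
    nlinarith
  have e3 := dd_HS (G := G) (α := α) (b := b) x
  have e4 := D.star x
  have e5 := deg_eq D.dat x
  rw [hx, ← D.hσ] at e5
  have e6 := D.c4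
  have e7 := D.h1
  have e8 := D.σ8
  have e9 : b ^ 2 ≤ dd G (HB α b) x := by nlinarith
  have hW := D.W0
  have e10 := D.b40
  rw [e1, hx] at e2
  have e11 : (b ^ 2 - 2 * W) * b ^ 2 ≤ θ0 * b ^ 2 := by
    calc (b ^ 2 - 2 * W) * b ^ 2 ≤ (b ^ 2 - 2 * W) * dd G (HB α b) x :=
          mul_le_mul_of_nonneg_left e9 (by linarith)
      _ ≤ b * (θ0 * b) := e2
      _ = θ0 * b ^ 2 := by ring
  exact le_of_mul_le_mul_right e11 (by positivity)

/-- the number of vertices of large weight -/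
lemma Dn.h_up (D : Dn G T θ0 θ1 θ2 α K b σ W s1) : ((HB α b).card : ℝ) ≤ b ^ 2 + 7 * W := by
  have hn := norm_sq D.dat
  have hup := D.th0_up
  have hW := D.W0
  have hb40 := D.b40
  have hσ8 := D.σ8
  have h1 := D.h1
  have hθ0 := D.dat.h0
  have hσ := D.hσ
  have hWe := D.hW
  have e1 : ((HB α b).card : ℝ) * (b ^ 2 - 4 * W) ≤ (b ^ 2 + W) ^ 2 := by
    calc ((HB α b).card : ℝ) * (b ^ 2 - 4 * W) = ∑ _x ∈ HB α b, (b ^ 2 - 4 * W) := by
          rw [Finset.sum_const, nsmul_eq_mul]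
      _ ≤ ∑ x ∈ HB α b, α x ^ 2 := Finset.sum_le_sum fun x hx => D.sq_lo hx
      _ ≤ ∑ x, α x ^ 2 := Finset.sum_le_sum_of_subset_of_nonneg (Finset.subset_univ _)
          fun x _ _ => sq_nonneg _
      _ = (θ0 - θ1) * (θ0 - θ2) := hn
      _ ≤ (b ^ 2 + W) * (b ^ 2 + W) := by
          have f1 : θ0 - θ1 ≤ b ^ 2 + W := by nlinarith
          have f2 : θ0 - θ2 ≤ b ^ 2 + W := by rw [hWe]; nlinarith
          have f3 : 0 ≤ θ0 - θ2 := by linarith
          have f4 : 0 ≤ b ^ 2 + W := by nlinarith [sq_nonneg b]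
          exact mul_le_mul f1 f2 f3 f4
      _ = _ := by ring
  have e2 : (b ^ 2 + W) ^ 2 ≤ (b ^ 2 + 7 * W) * (b ^ 2 - 4 * W) := by nlinarith [hW.1]
  have e3 : 0 < b ^ 2 - 4 * W := by linarith [hW.1]
  exact le_of_mul_le_mul_right (e1.trans e2) e3

lemma Dn.h_lo (D : Dn G T θ0 θ1 θ2 α K b σ W s1) : b ^ 2 - 4 * W ≤ ((HB α b).card : ℝ) := by
  obtain ⟨x, hx⟩ := D.xm
  exact (D.ddH_lo (D.xmH hx)).trans (dd_le _ _)

lemma Dn.lo_all (D : Dn G T θ0 θ1 θ2 α K b σ W s1) (x : V) : σ ≤ 2 * (b * α x) := by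
  have h1 := D.h1
  have hσ8 := D.σ8
  obtain ⟨y, hy⟩ := exists_adj D.dat (by rw [← D.hσ]; nlinarith) x
  have h2 := adj_ge D.dat x y hy
  have h3 := D.bmax y
  have h4 := D.dat.pos x
  have h5 := D.c2'
  have h6 := D.h1K
  rw [← D.hσ] at h2
  have h7 : α x * α y ≤ α x * b := mul_le_mul_of_nonneg_left h3 h4.le
  linarith

/-- the number of vertices of small weight -/
lemma Dn.m_up (D : Dn G T θ0 θ1 θ2 α K b σ W s1) : ((SB α b).card : ℝ) ≤ b ^ 2 + 1 := by
  by_cases hS : ∃ x, x ∈ SB α b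
  · obtain ⟨x, hx⟩ := hS
    have hb := D.bpos
    have hα := D.dat.pos x
    have e1 : ∑ z ∈ SB α b, (cd G x z : ℝ) = ∑ y, ad G x y * dd G (SB α b) y := by
      have : ∀ z ∈ SB α b, (cd G x z : ℝ) = ∑ y, ad G x y * ad G y z :=
        fun z _ => (ad_sq x z).symm
      rw [Finset.sum_congr rfl this, Finset.sum_comm]
      refine Finset.sum_congr rfl fun y _ => ?_
      unfold dd
      rw [Finset.mul_sum]
      exact Finset.sum_congr rfl fun z _ => by rw [ad_symm y z]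
    have e2 : ∑ y, ad G x y * dd G (SB α b) y ≤ G.degree x * s1 := by
      rw [← sum_ad, Finset.sum_mul]
      exact Finset.sum_le_sum fun y _ => mul_le_mul_of_nonneg_left (D.star y) (ad_nonneg G x y)
    have e3 : ((SB α b).card - 1 : ℝ) * (α x * (σ / (2 * b))) ≤ ∑ z ∈ SB α b, (cd G x z : ℝ) := by
      rw [← Finset.add_sum_erase _ _ hx]
      have f1 : (0 : ℝ) ≤ cd G x x := Nat.cast_nonneg _
      have f2 : ((SB α b).card - 1 : ℝ) * (α x * (σ / (2 * b))) ≤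
          ∑ z ∈ (SB α b).erase x, (cd G x z : ℝ) := by
        have g1 : ((SB α b).card - 1 : ℝ) = (((SB α b).erase x).card : ℝ) := by
          rw [Finset.card_erase_of_mem hx, Nat.cast_sub (Finset.card_pos.mpr ⟨x, hx⟩)]
          simp
        rw [g1, ← nsmul_eq_mul, ← Finset.sum_const]
        refine Finset.sum_le_sum fun z hz => ?_
        rw [Finset.mem_erase] at hz
        rw [D.dat.nadj x z (Ne.symm hz.1) (D.Scoc x hx z hz.2)]
        apply mul_le_mul_of_nonneg_left _ hα.le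
        rw [div_le_iff₀ (by positivity)]
        have := D.lo_all z
        nlinarith
      linarith
    have e4 := deg_eq D.dat x
    rw [← D.hσ] at e4
    have e5 := D.lo_all x
    have e6 := D.bmax x
    have e7 := D.h1K
    have e8 := D.c4'
    have hσ8 := D.σ8
    have hK := D.K1
    have h1 := D.h1
    have e9 : ((SB α b).card - 1 : ℝ) * (α x * (σ / (2 * b))) ≤ (α x ^ 2 + θ1 * σ) * s1 := by
      rw [← e4]; exact (e3.trans e1.le).trans e2
    -- θ1 σ ≤ 2 K b α_x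
    have e10 : α x ^ 2 + θ1 * σ ≤ α x * (b * (1 + 2 * K)) := by
      have g1 : α x ^ 2 ≤ α x * b := by nlinarith
      have g2 : θ1 * σ ≤ K * (2 * (b * α x)) := by
        calc θ1 * σ ≤ K * σ := mul_le_mul_of_nonneg_right e7 (by linarith)
          _ ≤ _ := mul_le_mul_of_nonneg_left e5 (by linarith)
      nlinarith
    have e11 : ((SB α b).card - 1 : ℝ) * (α x * (σ / (2 * b))) ≤
        (α x * (b * (1 + 2 * K))) * s1 :=
      e9.trans (mul_le_mul_of_nonneg_right e10 (Nat.cast_nonneg _))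
    have e12 : ((SB α b).card - 1 : ℝ) * (σ / (2 * b)) ≤ b * (1 + 2 * K) * s1 := by
      have : α x * (((SB α b).card - 1 : ℝ) * (σ / (2 * b))) ≤ α x * (b * (1 + 2 * K) * s1) := by
        calc _ = ((SB α b).card - 1 : ℝ) * (α x * (σ / (2 * b))) := by ring
          _ ≤ _ := e11
          _ = _ := by ring
      exact le_of_mul_le_mul_left this hα
    have e13 : ((SB α b).card - 1 : ℝ) * σ ≤ b ^ 2 * (2 * s1 * (1 + 2 * K)) := by
      have : (((SB α b).card - 1 : ℝ) * (σ / (2 * b))) * (2 * b) ≤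
          (b * (1 + 2 * K) * s1) * (2 * b) := mul_le_mul_of_nonneg_right e12 (by positivity)
      calc ((SB α b).card - 1 : ℝ) * σ = (((SB α b).card - 1 : ℝ) * (σ / (2 * b))) * (2 * b) := by
            field_simp
        _ ≤ _ := this
        _ = _ := by ring
    have e14 : ((SB α b).card - 1 : ℝ) * σ ≤ b ^ 2 * σ :=
      e13.trans (mul_le_mul_of_nonneg_left e8 (sq_nonneg _))
    have := le_of_mul_le_mul_right e14 (by linarith)
    linarith
  · push Not at hS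
    have : SB α b = ∅ := Finset.eq_empty_of_forall_notMem hS
    rw [this]; simp; positivity

lemma Dn.n_up (D : Dn G T θ0 θ1 θ2 α K b σ W s1) : (Fintype.card V : ℝ) ≤ 3 * b ^ 2 := by
  have h1 : (HB α b).card + (SB α b).card = Fintype.card V := by
    unfold HB SB
    rw [Finset.card_filter_add_card_filter_not, Finset.card_univ]
  have h2 : (Fintype.card V : ℝ) = (HB α b).card + (SB α b).card := by
    rw [← h1]; push_cast; ring
  rw [h2]
  have h3 := D.h_up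
  have h4 := D.m_up
  have h5 := D.b40
  have h6 := D.W0
  have h7 := D.σ8
  nlinarith

end TS
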