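import Mathlib
import Pool.Agent.TS.Dense

set_option autoImplicit false
set_option linter.unusedSectionVars false
set_option linter.unusedSimpArgs false
set_option linter.unusedVariables false

namespace TS

open Finset TE

variable {V : Type*} [Fintype V] [DecidableEq V]
variable {G : SimpleGraph V} [DecidableRel G.Adj] {T θ0 θ1 θ2 : ℝ} {α : V → ℝ}
variable {K b σ W : ℝ} {s1 : ℕ}

/-- indicator of being distinct and non-adjacent -/
def nm (G : SimpleGraph V) [DecidableRel G.Adj] (x z : V) : ℝ :=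
  if x = z ∨ G.Adj x z then 0 else 1

lemma nm_eq (x z : V) : nm G x z = 1 - (if x = z then 1 else 0) - ad G x z := by
  unfold nm ad
  by_cases h1 : x = z
  · subst h1; simp
  · by_cases h2 : G.Adj x z
    · simp [h1, h2]
    · simp [h1, h2]

lemma nm_nonneg (x z : V) : 0 ≤ nm G x z := by unfold nm; split_ifs <;> norm_num

lemma nm_symm (x z : V) : nm G x z = nm G z x := by
  unfold nm
  simp only [eq_comm, G.adj_comm]

lemma nm_one {x z : V} : nm G x z = 1 ↔ x ≠ z ∧ ¬ G.Adj x z := by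
  unfold nm
  split_ifs with h
  · constructor
    · intro h0; norm_num at h0
    · rintro ⟨h1, h2⟩; rcases h with h | h
      · exact absurd h h1
      · exact absurd h h2
  · push Not at h
    exact ⟨fun _ => h, fun _ => rfl⟩

/-- common non-neighbours inside `H` -/
noncomputable def DH (G : SimpleGraph V) [DecidableRel G.Adj] (α : V → ℝ) (b : ℝ) (y y' : V) : ℝ :=
  ∑ z ∈ HB α b, nm G y z * nm G y' z

lemma DH_nonneg (y y' : V) : 0 ≤ DH G α b y y' :=
  Finset.sum_nonneg fun z _ => mul_nonneg (nm_nonneg _ _) (nm_nonneg _ _)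

/-- number of non-neighbours inside `H` -/
noncomputable def mm (G : SimpleGraph V) [DecidableRel G.Adj] (α : V → ℝ) (b : ℝ) (y : V) : ℝ :=
  ∑ z ∈ HB α b, nm G y z

lemma mm_eq {y : V} (hy : y ∈ HB α b) :
    mm G α b y = (HB α b).card - 1 - dd G (HB α b) y := by
  unfold mm dd
  have : ∀ z ∈ HB α b, nm G y z = 1 - (if y = z then 1 else 0) - ad G z y := by
    intro z _
    rw [nm_eq, ad_symm z y]
  rw [Finset.sum_congr rfl this, Finset.sum_sub_distrib, Finset.sum_sub_distrib,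
    Finset.sum_const, nsmul_eq_mul, Finset.sum_ite_eq, if_pos hy, mul_one]

lemma Dn.mm_up (D : Dn G T θ0 θ1 θ2 α K b σ W s1) {y : V} (hy : y ∈ HB α b) :
    mm G α b y ≤ 11 * W := by
  rw [mm_eq hy]
  have h1 := D.ddH_lo hy
  have h2 := D.h_up
  linarith

lemma DH_eq {y y' : V} (hy : y ∈ HB α b) (hy' : y' ∈ HB α b) (hne : y ≠ y') :
    DH G α b y y' = (HB α b).card - 2 + 2 * ad G y y' - G.degree y - G.degree y' + cd G y y'
      + (dd G (SB α b) y + dd G (SB α b) y' - ∑ z ∈ SB α b, ad G y z * ad G z y') := by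
  have h1 : ∀ z ∈ HB α b, nm G y z * nm G y' z =
      1 - (if y = z then 1 else 0) - (if y' = z then 1 else 0) - ad G z y - ad G z y'
      + (if y = z then ad G y' z else 0) + (if y' = z then ad G y z else 0)
      + ad G y z * ad G z y' := by
    intro z _
    rw [nm_eq, nm_eq, ad_symm z y, ad_symm z y']
    by_cases e1 : y = z
    · by_cases e2 : y' = z
      · exact absurd (e1.trans e2.symm) hne
      · simp only [if_pos e1, if_neg e2]; ring
    · by_cases e2 : y' = z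
      · simp only [if_neg e1, if_pos e2]; ring
      · simp only [if_neg e1, if_neg e2]; ring
  have h2 : ∑ z ∈ HB α b, ad G y z * ad G z y' = cd G y y' - ∑ z ∈ SB α b, ad G y z * ad G z y' := by
    have := sum_HS (α := α) (b := b) (fun z => ad G y z * ad G z y')
    rw [ad_sq] at this
    linarith
  have h3 := dd_HS (G := G) (α := α) (b := b) y
  have h4 := dd_HS (G := G) (α := α) (b := b) y'
  have h5 : ∑ z ∈ HB α b, ad G z y = dd G (HB α b) y := rfl
  have h6 : ∑ z ∈ HB α b, ad G z y' = dd G (HB α b) y' := rfl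
  unfold DH
  rw [Finset.sum_congr rfl h1]
  simp only [Finset.sum_add_distrib, Finset.sum_sub_distrib, Finset.sum_const, nsmul_eq_mul,
    Finset.sum_ite_eq, if_pos hy, if_pos hy', mul_one]
  rw [h2, h5, h6, ad_symm y' y]
  linarith

/-- the basic defect constant -/
noncomputable def E0 (α : V → ℝ) (b θ1 σ : ℝ) : ℝ :=
  (HB α b).card - 2 * (θ1 * σ) - σ + θ1 - b ^ 2

noncomputable def gg (α : V → ℝ) (b : ℝ) (y : V) : ℝ := b * (b - α y)

lemma Dn.e_bd (D : Dn G T θ0 θ1 θ2 α K b σ W s1) (y y' : V) :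
    0 ≤ dd G (SB α b) y + dd G (SB α b) y' - ∑ z ∈ SB α b, ad G y z * ad G z y' ∧
    dd G (SB α b) y + dd G (SB α b) y' - ∑ z ∈ SB α b, ad G y z * ad G z y' ≤ 2 * s1 := by
  have h1 := D.star y
  have h2 := D.star y'
  have h3 : 0 ≤ ∑ z ∈ SB α b, ad G y z * ad G z y' :=
    Finset.sum_nonneg fun z _ => mul_nonneg (ad_nonneg G _ _) (ad_nonneg G _ _)
  have h4 : ∑ z ∈ SB α b, ad G y z * ad G z y' ≤ dd G (SB α b) y := by
    unfold dd
    refine Finset.sum_le_sum fun z _ => ?_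
    rw [ad_symm z y]
    have e1 : ad G z y' ≤ 1 := by unfold ad; split_ifs <;> norm_num
    have e2 := ad_nonneg G y z
    nlinarith
  have h5 := dd_nonneg (G := G) (SB α b) y'
  constructor <;> linarith

lemma Dn.q_bd (D : Dn G T θ0 θ1 θ2 α K b σ W s1) {y y' : V} (hy : y ∈ HB α b)
    (hy' : y' ∈ HB α b) : ∃ q : ℝ, 0 ≤ q ∧ q ≤ 4 * (W ^ 2 / b ^ 2) ∧
    α y ^ 2 + α y' ^ 2 - α y * α y' = b ^ 2 - gg α b y - gg α b y' + q := by
  have hb := D.bpos
  refine ⟨(b - α y) ^ 2 + (b - α y') ^ 2 - (b - α y) * (b - α y'), ?_, ?_, ?_⟩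
  · nlinarith [sq_nonneg ((b - α y) - (b - α y')), sq_nonneg (b - α y), sq_nonneg (b - α y'),
      sq_nonneg ((b - α y) + (b - α y'))]
  · have h1 := D.Hlo hy
    have h2 := D.Hlo hy'
    have h3 := D.bmax y
    have h4 := D.bmax y'
    have hW := D.W0
    have key : ∀ p p' : ℝ, 0 ≤ p → p ≤ p' → b * p' ≤ 2 * W →
        p ^ 2 + p' ^ 2 - p * p' ≤ 4 * (W ^ 2 / b ^ 2) := by
      intro p p' hp hpp hbp
      have f1 : p ^ 2 + p' ^ 2 - p * p' ≤ p' ^ 2 := by nlinarith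
      have f2 : p' ^ 2 ≤ 4 * (W ^ 2 / b ^ 2) := by
        have g1 : p' ≤ 2 * W / b := by rw [le_div_iff₀ hb]; linarith
        calc p' ^ 2 ≤ (2 * W / b) ^ 2 := pow_le_pow_left₀ (hp.trans hpp) g1 2
          _ = _ := by ring
      linarith
    rcases le_total (b - α y) (b - α y') with hle | hle
    · exact key _ _ (by linarith) hle h2
    · have := key _ _ (by linarith) hle h1
      linarith
  · unfold gg; ring

lemma Dn.DH_adj (D : Dn G T θ0 θ1 θ2 α K b σ W s1) {y y' : V} (hy : y ∈ HB α b)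
    (hy' : y' ∈ HB α b) (hadj : G.Adj y y') :
    E0 α b θ1 σ + gg α b y + gg α b y' - 4 * (W ^ 2 / b ^ 2) ≤ DH G α b y y' ∧
    DH G α b y y' ≤ E0 α b θ1 σ + gg α b y + gg α b y' + 2 * s1 := by
  obtain ⟨q, hq0, hq1, hq⟩ := D.q_bd hy hy'
  have he := D.e_bd y y'
  have h1 := DH_eq (G := G) hy hy' hadj.ne
  have h2 : ad G y y' = 1 := by unfold ad; rw [if_pos hadj]
  rw [h2, deg_eq D.dat, deg_eq D.dat, D.dat.adj y y' hadj, ← D.hσ] at h1
  have h3 := D.hσ
  unfold E0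
  constructor <;> linarith

lemma Dn.DH_nadj (D : Dn G T θ0 θ1 θ2 α K b σ W s1) {y y' : V} (hy : y ∈ HB α b)
    (hy' : y' ∈ HB α b) (hne : y ≠ y') (hadj : ¬ G.Adj y y') :
    E0 α b θ1 σ + gg α b y + gg α b y' - 4 * (W ^ 2 / b ^ 2) + σ - θ1 - 2 ≤ DH G α b y y' := by
  obtain ⟨q, hq0, hq1, hq⟩ := D.q_bd hy hy'
  have he := D.e_bd y y'
  have h1 := DH_eq (G := G) hy hy' hne
  have h2 : ad G y y' = 0 := by unfold ad; rw [if_neg hadj]
  rw [h2, deg_eq D.dat, deg_eq D.dat, D.dat.nadj y y' hne hadj, ← D.hσ] at h1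
  have h3 := D.hσ
  unfold E0
  linarith

lemma Dn.sum_DH (D : Dn G T θ0 θ1 θ2 α K b σ W s1) {y : V} (hy : y ∈ HB α b) :
    ∑ y' ∈ HB α b, ad G y y' * DH G α b y y' ≤ 121 * W ^ 2 := by
  have hW := D.W0
  have h1 : ∑ y' ∈ HB α b, ad G y y' * DH G α b y y' =
      ∑ z ∈ HB α b, nm G y z * ∑ y' ∈ HB α b, ad G y y' * nm G z y' := by
    unfold DH
    simp only [Finset.mul_sum]
    rw [Finset.sum_comm]
    refine Finset.sum_congr rfl fun z _ => Finset.sum_congr rfl fun y' _ => ?_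
    rw [nm_symm y' z]; ring
  rw [h1]
  have h2 : ∀ z ∈ HB α b, ∑ y' ∈ HB α b, ad G y y' * nm G z y' ≤ 11 * W := by
    intro z hz
    calc ∑ y' ∈ HB α b, ad G y y' * nm G z y' ≤ ∑ y' ∈ HB α b, nm G z y' := by
          refine Finset.sum_le_sum fun y' _ => ?_
          have e1 : ad G y y' ≤ 1 := by unfold ad; split_ifs <;> norm_num
          have e2 := nm_nonneg (G := G) z y'
          nlinarith
      _ ≤ 11 * W := D.mm_up hz
  calc ∑ z ∈ HB α b, nm G y z * ∑ y' ∈ HB α b, ad G y y' * nm G z y'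
      ≤ ∑ z ∈ HB α b, nm G y z * (11 * W) :=
        Finset.sum_le_sum fun z hz => mul_le_mul_of_nonneg_left (h2 z hz) (nm_nonneg _ _)
    _ = mm G α b y * (11 * W) := by unfold mm; rw [Finset.sum_mul]
    _ ≤ (11 * W) * (11 * W) := mul_le_mul_of_nonneg_right (D.mm_up hy) (by linarith [hW.1])
    _ = _ := by ring

/-- two vertices of `H` have a common neighbour with few common non-neighbours with each -/
lemma Dn.pigeon (D : Dn G T θ0 θ1 θ2 α K b σ W s1) {y z : V} (hy : y ∈ HB α b)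
    (hz : z ∈ HB α b) : ∃ x ∈ HB α b, G.Adj y x ∧ G.Adj z x ∧
      DH G α b y x ≤ 1000 * (W ^ 2 / b ^ 2) ∧ DH G α b z x ≤ 1000 * (W ^ 2 / b ^ 2) := by
  by_contra hcon
  push Not at hcon
  have hW := D.W0
  have hb := D.bpos
  have hσ8 := D.σ8
  set lam : ℝ := 1000 * (W ^ 2 / b ^ 2) with hlam
  have hlam0 : 0 < lam := by have := hW.1; positivity
  have key : ∀ x ∈ HB α b, (1 : ℝ) ≤ (1 - ad G y x) + (1 - ad G z x)
      + (ad G y x * DH G α b y x) / lam + (ad G z x * DH G α b z x) / lam := by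
    intro x hx
    have n1 : 0 ≤ (ad G y x * DH G α b y x) / lam :=
      div_nonneg (mul_nonneg (ad_nonneg G _ _) (DH_nonneg _ _)) hlam0.le
    have n2 : 0 ≤ (ad G z x * DH G α b z x) / lam :=
      div_nonneg (mul_nonneg (ad_nonneg G _ _) (DH_nonneg _ _)) hlam0.le
    by_cases e1 : G.Adj y x
    · by_cases e2 : G.Adj z x
      · have a1 : ad G y x = 1 := by unfold ad; rw [if_pos e1]
        have a2 : ad G z x = 1 := by unfold ad; rw [if_pos e2]
        rw [a1] at n1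
        rw [a2] at n2
        rw [a1, a2]
        by_cases e3 : DH G α b y x ≤ lam
        · have e4 := hcon x hx e1 e2 e3
          have : 1 ≤ (1 * DH G α b z x) / lam := by
            rw [le_div_iff₀ hlam0]; linarith
          linarith
        · push Not at e3
          have : 1 ≤ (1 * DH G α b y x) / lam := by
            rw [le_div_iff₀ hlam0]; linarith
          linarith
      · have a2 : ad G z x = 0 := by unfold ad; rw [if_neg e2]
        have a1 : ad G y x ≤ 1 := by unfold ad; split_ifs <;> norm_num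
        rw [a2] at n2 ⊢
        linarith
    · have a1 : ad G y x = 0 := by unfold ad; rw [if_neg e1]
      have a2 : ad G z x ≤ 1 := by unfold ad; split_ifs <;> norm_num
      rw [a1] at n1 ⊢
      linarith
  have h1 := Finset.sum_le_sum key
  have e1 : ∑ x ∈ HB α b, ad G y x = dd G (HB α b) y :=
    Finset.sum_congr rfl fun x _ => ad_symm y x
  have e2 : ∑ x ∈ HB α b, ad G z x = dd G (HB α b) z :=
    Finset.sum_congr rfl fun x _ => ad_symm z x
  simp only [Finset.sum_add_distrib, Finset.sum_sub_distrib, Finset.sum_const, nsmul_eq_mul,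
    mul_one, ← Finset.sum_div] at h1
  rw [e1, e2] at h1
  have h2 := D.sum_DH hy
  have h3 := D.sum_DH hz
  have h4 := mm_eq (G := G) hy
  have h5 := mm_eq (G := G) hz
  have h6 := D.mm_up hy
  have h7 := D.mm_up hz
  have h8 := D.h_lo
  have h9 := D.b40
  have d1 : (121 * W ^ 2) / lam = 121 / 1000 * b ^ 2 := by
    rw [hlam]
    have := hW.1.ne'
    field_simp
  have d2 : (∑ x ∈ HB α b, ad G y x * DH G α b y x) / lam ≤ 121 / 1000 * b ^ 2 := by
    rw [← d1]; exact div_le_div_of_nonneg_right h2 hlam0.le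
  have d3 : (∑ x ∈ HB α b, ad G z x * DH G α b z x) / lam ≤ 121 / 1000 * b ^ 2 := by
    rw [← d1]; exact div_le_div_of_nonneg_right h3 hlam0.le
  linarith

lemma Dn.pair (D : Dn G T θ0 θ1 θ2 α K b σ W s1) {y z : V} (hy : y ∈ HB α b)
    (hz : z ∈ HB α b) : ∃ x ∈ HB α b,
      (-(2 * s1) ≤ E0 α b θ1 σ + gg α b y + gg α b x ∧
        E0 α b θ1 σ + gg α b y + gg α b x ≤ 1004 * (W ^ 2 / b ^ 2)) ∧
      (-(2 * s1) ≤ E0 α b θ1 σ + gg α b z + gg α b x ∧
        E0 α b θ1 σ + gg α b z + gg α b x ≤ 1004 * (W ^ 2 / b ^ 2)) := by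
  obtain ⟨x, hx, h1, h2, h3, h4⟩ := D.pigeon hy hz
  have h5 := D.DH_adj hy hx h1
  have h6 := D.DH_adj hz hx h2
  have h7 := DH_nonneg (G := G) (α := α) (b := b) y x
  have h8 := DH_nonneg (G := G) (α := α) (b := b) z x
  refine ⟨x, hx, ⟨by linarith, by linarith⟩, ⟨by linarith, by linarith⟩⟩

lemma Dn.gdiff (D : Dn G T θ0 θ1 θ2 α K b σ W s1) {y z : V} (hy : y ∈ HB α b)
    (hz : z ∈ HB α b) : gg α b y - gg α b z ≤ 2 * s1 + 1004 * (W ^ 2 / b ^ 2) := by
  obtain ⟨x, hx, ⟨h1, h2⟩, ⟨h3, h4⟩⟩ := D.pair hy hz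
  linarith

lemma Dn.Lam (D : Dn G T θ0 θ1 θ2 α K b σ W s1) {y z : V} (hy : y ∈ HB α b)
    (hz : z ∈ HB α b) :
    -(4 * s1 + 2008 * (W ^ 2 / b ^ 2)) ≤ E0 α b θ1 σ + gg α b y + gg α b z ∧
    E0 α b θ1 σ + gg α b y + gg α b z ≤ 4 * s1 + 2008 * (W ^ 2 / b ^ 2) := by
  obtain ⟨x, hx, ⟨h1, h2⟩, ⟨h3, h4⟩⟩ := D.pair hy hz
  have h5 := D.gdiff hz hx
  have h6 := D.gdiff hx hz
  have hs : (0 : ℝ) ≤ s1 := Nat.cast_nonneg _
  have hq : 0 ≤ W ^ 2 / b ^ 2 := by positivity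
  constructor <;> linarith

/-- cliques in the non-neighbourhood of a vertex are bounded -/
lemma Dn.claw (D : Dn G T θ0 θ1 θ2 α K b σ W s1) (s2 : ℕ) (hs2 : (K + 1) ^ 2 + 1 ≤ s2)
    (hs2' : 30 * (s2 : ℝ) ^ 2 * (K + 1) * W < b ^ 2) {y : V} (hy : y ∈ HB α b)
    (Q : Finset V) (hQH : ∀ z ∈ Q, z ∈ HB α b) (hQy : ∀ z ∈ Q, nm G y z = 1)
    (hQ : ∀ u ∈ Q, ∀ v ∈ Q, u ≠ v → G.Adj u v) : Q.card < s2 := by
  by_contra hcon
  push Not at hcon
  obtain ⟨X, hX, hXc⟩ := Finset.exists_subset_card_eq hcon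
  have h1 := D.h1
  have h1K := D.h1K
  have hK := D.K1
  have hb := D.bpos
  have hW := D.W0
  have hb40 := D.b40
  set a : ℝ := 1 / (θ1 + 1) with ha
  have ha1 : a * (θ1 + 1) = 1 := by rw [ha]; field_simp
  have ha0 : 0 < a := by rw [ha]; positivity
  have ha2 : a ≤ 1 / 2 := by
    rw [ha]; apply one_div_le_one_div_of_le <;> linarith
  have hyX : y ∉ X := fun hh => (nm_one.mp (hQy y (hX hh))).1 rfl
  have key := form_add D.dat y (fun z => if z ∈ X then -a else 0) (if_neg hyX)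
  have e1 : ∑ x : V, (if x ∈ X then -a else 0) ^ 2 = s2 * a ^ 2 := by
    have : ∀ x : V, (if x ∈ X then -a else 0) ^ 2 = if x ∈ X then a ^ 2 else 0 := by
      intro x; split_ifs <;> ring
    rw [Finset.sum_congr rfl fun x _ => this x, Finset.sum_ite_mem, Finset.univ_inter,
      Finset.sum_const, hXc, nsmul_eq_mul]
  have e2 : ∑ z, ad G y z * (if z ∈ X then -a else 0) = 0 := by
    refine Finset.sum_eq_zero fun z _ => ?_
    split_ifs with hz
    · unfold ad; rw [if_neg (nm_one.mp (hQy z (hX hz))).2]; ring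
    · ring
  have e3 : qf G (fun z => if z ∈ X then -a else 0) = (s2 * a) ^ 2 - s2 * a ^ 2 := by
    rw [qf_clq _ X (fun u hu v hv huv => hQ u (hX hu) v (hX hv) huv) (by
      intro x hx; simp [hx]), e1, Finset.sum_ite_mem, Finset.univ_inter, Finset.sum_const, hXc,
      nsmul_eq_mul]
    ring
  have e4 : ∑ x, α x * (if x ∈ X then -a else 0) = -(a * ∑ x ∈ X, α x) := by
    have : ∀ x, α x * (if x ∈ X then -a else 0) = if x ∈ X then -(a * α x) else 0 := by
      intro x; split_ifs <;> ring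
    rw [Finset.sum_congr rfl fun x _ => this x, Finset.sum_ite_mem, Finset.univ_inter,
      Finset.sum_neg_distrib, Finset.mul_sum]
  rw [e1, e2, e3, e4] at key
  set A := ∑ x ∈ X, α x with hA
  set s : ℝ := (s2 : ℝ) with hs
  have hs1 : 1 ≤ s := by nlinarith
  have hAup : b * A ≤ s * b ^ 2 := by
    rw [hA, Finset.mul_sum, hs, ← hXc, ← nsmul_eq_mul, ← Finset.sum_const]
    refine Finset.sum_le_sum fun x _ => ?_
    have := D.bmax x
    nlinarith
  have hAlo : s * (b ^ 2 - 2 * W) ≤ b * A := by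
    rw [hA, Finset.mul_sum, hs, ← hXc, ← nsmul_eq_mul, ← Finset.sum_const]
    refine Finset.sum_le_sum fun x hx => ?_
    have := D.Hlo (hQH x (hX hx))
    nlinarith
  have hyup : b * α y ≤ b ^ 2 := by have := D.bmax y; nlinarith
  have hylo : b ^ 2 - 2 * W ≤ b * α y := by have := D.Hlo hy; nlinarith
  set v : ℝ := a * s with hv
  have hv0 : 0 < v := by positivity
  have hvs : v ≤ s := by rw [hv]; nlinarith
  set p : ℝ := b * α y - a * (b * A) with hp
  have hp1 : b ^ 2 * (1 - v) - 2 * W ≤ p := by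
    have : a * (b * A) ≤ a * (s * b ^ 2) := mul_le_mul_of_nonneg_left hAup ha0.le
    rw [hp, hv]; nlinarith
  have hp2 : p ≤ b ^ 2 * (1 - v) + 2 * W * v := by
    have : a * (s * (b ^ 2 - 2 * W)) ≤ a * (b * A) := mul_le_mul_of_nonneg_left hAlo ha0.le
    rw [hp, hv]; nlinarith
  set d : ℝ := p - b ^ 2 * (1 - v) with hd
  have hd1 : |d| ≤ 2 * W * (1 + v) := by
    rw [abs_le]
    constructor
    · rw [hd]; nlinarith [hW.1]
    · rw [hd]; nlinarith [hW.1]
  have hd2 : |d| ≤ 4 * W * s := by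
    refine hd1.trans ?_
    nlinarith [hW.1]
  have h1v : |1 - v| ≤ 2 * s := by
    rw [abs_le]; constructor <;> linarith
  have hb2 : 0 < b ^ 2 := by positivity
  have hpsq : p ^ 2 ≤ b ^ 4 * (1 - v) ^ 2 + 17 * W * b ^ 2 * s ^ 2 := by
    have f1 : p = b ^ 2 * (1 - v) + d := by rw [hd]; ring
    have f2 : p ^ 2 = b ^ 4 * (1 - v) ^ 2 + 2 * (b ^ 2 * ((1 - v) * d)) + d ^ 2 := by
      rw [f1]; ring
    have f3 : (1 - v) * d ≤ 8 * W * s ^ 2 := by
      calc (1 - v) * d ≤ |(1 - v) * d| := le_abs_self _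
        _ = |1 - v| * |d| := abs_mul _ _
        _ ≤ (2 * s) * (4 * W * s) := mul_le_mul h1v hd2 (abs_nonneg _) (by linarith)
        _ = _ := by ring
    have f4 : d ^ 2 ≤ 16 * W ^ 2 * s ^ 2 := by
      calc d ^ 2 = |d| ^ 2 := (sq_abs d).symm
        _ ≤ (4 * W * s) ^ 2 := pow_le_pow_left₀ (abs_nonneg _) hd2 2
        _ = _ := by ring
    have f5 : 16 * W ^ 2 * s ^ 2 ≤ W * b ^ 2 * s ^ 2 := by
      have : 16 * W ^ 2 ≤ W * b ^ 2 := by nlinarith [hW.1]
      exact mul_le_mul_of_nonneg_right this (sq_nonneg _)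
    have f6 : b ^ 2 * ((1 - v) * d) ≤ b ^ 2 * (8 * W * s ^ 2) :=
      mul_le_mul_of_nonneg_left f3 hb2.le
    rw [f2]; nlinarith
  have hθ := D.th0_lo2
  have hθ02 : b ^ 2 - 2 * W ≤ θ0 - θ2 := by
    have := D.hσ; have := D.σ8; linarith
  have hθpos : 0 < θ0 - θ2 := by linarith [hW.1]
  have hfin : (α y + -(a * A)) ^ 2 / (θ0 - θ2) ≤ (1 - v) ^ 2 + 30 * W * s ^ 2 / b ^ 2 := by
    rw [div_le_iff₀ hθpos]
    have g1 : b ^ 2 * (α y + -(a * A)) ^ 2 = p ^ 2 := by rw [hp]; ring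
    have g2 : (1 - v) ^ 2 ≤ 4 * s ^ 2 := by
      calc (1 - v) ^ 2 = |1 - v| ^ 2 := (sq_abs _).symm
        _ ≤ (2 * s) ^ 2 := pow_le_pow_left₀ (abs_nonneg _) h1v 2
        _ = _ := by ring
    have g3 : b ^ 4 * (1 - v) ^ 2 + 17 * W * b ^ 2 * s ^ 2 ≤
        b ^ 2 * (((1 - v) ^ 2 + 30 * W * s ^ 2 / b ^ 2) * (b ^ 2 - 2 * W)) := by
      have i1 : b ^ 2 * (((1 - v) ^ 2 + 30 * W * s ^ 2 / b ^ 2) * (b ^ 2 - 2 * W)) =
          (b ^ 2 * (1 - v) ^ 2 + 30 * W * s ^ 2) * (b ^ 2 - 2 * W) := by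
        field_simp
      rw [i1]
      have i2 : 2 * W * (b ^ 2 * (1 - v) ^ 2) ≤ 2 * W * (b ^ 2 * (4 * s ^ 2)) :=
        mul_le_mul_of_nonneg_left (mul_le_mul_of_nonneg_left g2 hb2.le) (by linarith [hW.1])
      have i3 : 60 * W ^ 2 * s ^ 2 ≤ (3 / 2) * W * b ^ 2 * s ^ 2 := by
        have : 60 * W ^ 2 ≤ (3 / 2) * W * b ^ 2 := by nlinarith [hW.1]
        exact mul_le_mul_of_nonneg_right this (sq_nonneg _)
      have i4 : 0 ≤ W * b ^ 2 * s ^ 2 := by have := hW.1; positivity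
      nlinarith
    have g4 : b ^ 2 * (((1 - v) ^ 2 + 30 * W * s ^ 2 / b ^ 2) * (b ^ 2 - 2 * W)) ≤
        b ^ 2 * (((1 - v) ^ 2 + 30 * W * s ^ 2 / b ^ 2) * (θ0 - θ2)) := by
      apply mul_le_mul_of_nonneg_left _ hb2.le
      apply mul_le_mul_of_nonneg_left hθ02
      have := hW.1
      positivity
    have g5 : b ^ 2 * (α y + -(a * A)) ^ 2 ≤
        b ^ 2 * (((1 - v) ^ 2 + 30 * W * s ^ 2 / b ^ 2) * (θ0 - θ2)) := by
      rw [g1]; exact (hpsq.trans g3).trans g4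
    exact le_of_mul_le_mul_left g5 hb2
  have k1 : v ≤ θ1 + 1 + 30 * W * s ^ 2 / b ^ 2 := by
    have : θ1 * (1 + s * a ^ 2) - 2 * 0 - ((s * a) ^ 2 - s * a ^ 2) + (1 - v) ^ 2
        = θ1 + 1 - v := by
      have i1 : s * a ^ 2 * (θ1 + 1) = v := by
        calc s * a ^ 2 * (θ1 + 1) = (a * s) * (a * (θ1 + 1)) := by ring
          _ = v := by rw [ha1, hv]; ring
      have i2 : (s * a) ^ 2 = v ^ 2 := by rw [hv]; ring
      rw [i2]
      linear_combination i1
    linarith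
  have k2 : s ≤ (θ1 + 1) ^ 2 + 30 * W * s ^ 2 / b ^ 2 * (θ1 + 1) := by
    have : v * (θ1 + 1) ≤ (θ1 + 1 + 30 * W * s ^ 2 / b ^ 2) * (θ1 + 1) :=
      mul_le_mul_of_nonneg_right k1 (by linarith)
    have i1 : v * (θ1 + 1) = s := by
      calc v * (θ1 + 1) = s * (a * (θ1 + 1)) := by rw [hv]; ring
        _ = s := by rw [ha1]; ring
    rw [i1] at this
    calc s ≤ _ := this
      _ = _ := by ring
  have k3 : 30 * W * s ^ 2 / b ^ 2 * (θ1 + 1) < 1 := by
    have i1 : 30 * W * s ^ 2 / b ^ 2 * (θ1 + 1) = (30 * s ^ 2 * (θ1 + 1) * W) / b ^ 2 := by ring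
    rw [i1, div_lt_one hb2]
    have i2 : 30 * s ^ 2 * (θ1 + 1) * W ≤ 30 * s ^ 2 * (K + 1) * W := by
      apply mul_le_mul_of_nonneg_right _ hW.1.le
      apply mul_le_mul_of_nonneg_left (by linarith) (by positivity)
    linarith
  nlinarith

end TS
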