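import Mathlib
import Pool.Agent.TS.Dense2

set_option autoImplicit false
set_option linter.unusedSectionVars false
set_option linter.unusedSimpArgs false
set_option linter.unusedVariables false

namespace TS

open Finset TE

variable {V : Type*} [Fintype V] [DecidableEq V]
variable {G : SimpleGraph V} [DecidableRel G.Adj] {T θ0 θ1 θ2 : ℝ} {α : V → ℝ}
variable {K b σ W : ℝ} {s1 : ℕ}

lemma nm_zero_or (x z : V) : nm G x z = 0 ∨ nm G x z = 1 := by
  unfold nm; split_ifs
  · left; rfl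
  · right; rfl

lemma DH_card (y y' : V) : DH G α b y y' =
    (((HB α b).filter (fun w => nm G y w = 1 ∧ nm G y' w = 1)).card : ℝ) := by
  unfold DH
  rw [← Finset.sum_boole]
  refine Finset.sum_congr rfl fun w _ => ?_
  rcases nm_zero_or (G := G) y w with h1 | h1
  · rw [h1]; simp
  · rcases nm_zero_or (G := G) y' w with h2 | h2
    · rw [h1, h2]; simp
    · rw [h1, h2]; simp

lemma Dn.coclique (D : Dn G T θ0 θ1 θ2 α K b σ W s1) (s2 : ℕ) (hs2 : (K + 1) ^ 2 + 1 ≤ s2)
    (hs2' : 30 * (s2 : ℝ) ^ 2 * (K + 1) * W < b ^ 2)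
    (hbig : (K + 2 + 2 * s1 * s2 + 4 * s1 * (1 + s2)) + 2012 * (1 + s2) * (W ^ 2 / b ^ 2)
      ≤ 3 / 4 * σ) {y z : V} (hy : y ∈ HB α b) (hz : z ∈ HB α b) (hyz : nm G y z = 1) :
    ∃ U : Finset V, U ⊆ HB α b ∧ (∀ u ∈ U, ∀ v ∈ U, ¬ G.Adj u v) ∧ σ / 4 ≤ U.card := by
  classical
  set P : Finset (Finset V) := ((HB α b).filter (fun w => nm G y w = 1)).powerset.filter
    (fun Q => ∀ u ∈ Q, ∀ v ∈ Q, u ≠ v → G.Adj u v) with hP
  have hmemP : ∀ Q : Finset V, Q ∈ P ↔ (∀ w ∈ Q, w ∈ HB α b ∧ nm G y w = 1) ∧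
      (∀ u ∈ Q, ∀ v ∈ Q, u ≠ v → G.Adj u v) := by
    intro Q
    rw [hP, Finset.mem_filter, Finset.mem_powerset]
    constructor
    · rintro ⟨h1, h2⟩
      exact ⟨fun w hw => Finset.mem_filter.mp (h1 hw), h2⟩
    · rintro ⟨h1, h2⟩
      exact ⟨fun w hw => Finset.mem_filter.mpr (h1 w hw), h2⟩
  have hzP : ({z} : Finset V) ∈ P := by
    rw [hmemP]
    constructor
    · intro w hw
      rw [Finset.mem_singleton] at hw
      rw [hw]; exact ⟨hz, hyz⟩
    · intro u hu v hv huv
      rw [Finset.mem_singleton] at hu hv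
      exact absurd (hu.trans hv.symm) huv
  obtain ⟨Q, hQP, hmax⟩ := P.exists_max_image Finset.card ⟨_, hzP⟩
  have hQ := (hmemP Q).mp hQP
  have hQcard : Q.card < s2 := D.claw s2 hs2 hs2' hy Q (fun w hw => (hQ.1 w hw).1)
    (fun w hw => (hQ.1 w hw).2) hQ.2
  have hQne : Q.Nonempty := by
    rw [← Finset.card_pos]
    have := hmax _ hzP
    rw [Finset.card_singleton] at this
    omega
  obtain ⟨z1, hz1⟩ := hQne
  have hz1H := (hQ.1 z1 hz1).1
  have hz1y := (hQ.1 z1 hz1).2
  set A1 := (HB α b).filter (fun w => nm G y w = 1 ∧ nm G z1 w = 1) with hA1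
  set B : V → Finset V := fun j => (HB α b).filter (fun w => nm G z1 w = 1 ∧ nm G j w = 1) with hB
  set R := (Q.erase z1).biUnion B with hR
  set U := A1 \ R with hU
  have hmemU : ∀ u ∈ U, u ∈ HB α b ∧ nm G y u = 1 ∧ nm G z1 u = 1 ∧
      ∀ j ∈ Q.erase z1, G.Adj j u := by
    intro u hu
    rw [hU, Finset.mem_sdiff, hA1, Finset.mem_filter] at hu
    obtain ⟨⟨h1, h2, h3⟩, h4⟩ := hu
    refine ⟨h1, h2, h3, ?_⟩
    intro j hj
    by_contra hadj
    have hne : j ≠ u := by
      rintro rfl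
      rw [Finset.mem_erase] at hj
      have := hQ.2 z1 hz1 j hj.2 (Ne.symm hj.1)
      exact (nm_one.mp h3).2 this
    apply h4
    rw [hR, Finset.mem_biUnion]
    refine ⟨j, hj, ?_⟩
    rw [hB]
    exact Finset.mem_filter.mpr ⟨h1, h3, nm_one.mpr ⟨hne, hadj⟩⟩
  refine ⟨U, fun u hu => (hmemU u hu).1, ?_, ?_⟩
  · intro u hu v hv hadj
    have hu' := hmemU u hu
    have hv' := hmemU v hv
    have hne : u ≠ v := hadj.ne
    have huQ : u ∉ Q.erase z1 := fun hh => (hu'.2.2.2 u hh).ne rfl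
    have hvQ : v ∉ Q.erase z1 := fun hh => (hv'.2.2.2 v hh).ne rfl
    have huvQ : u ∉ insert v (Q.erase z1) := by
      rw [Finset.mem_insert]; push Not; exact ⟨hne, huQ⟩
    have hnew : insert u (insert v (Q.erase z1)) ∈ P := by
      rw [hmemP]
      constructor
      · intro w hw
        rw [Finset.mem_insert, Finset.mem_insert] at hw
        rcases hw with rfl | rfl | hw
        · exact ⟨hu'.1, hu'.2.1⟩
        · exact ⟨hv'.1, hv'.2.1⟩
        · exact hQ.1 w (Finset.mem_of_mem_erase hw)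
      · intro p hp q hq hpq
        rw [Finset.mem_insert, Finset.mem_insert] at hp hq
        rcases hp with rfl | rfl | hp
        · rcases hq with rfl | rfl | hq
          · exact absurd rfl hpq
          · exact hadj
          · exact (hu'.2.2.2 q hq).symm
        · rcases hq with rfl | rfl | hq
          · exact hadj.symm
          · exact absurd rfl hpq
          · exact (hv'.2.2.2 q hq).symm
        · rcases hq with rfl | rfl | hq
          · exact hu'.2.2.2 p hp
          · exact hv'.2.2.2 p hp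
          · exact hQ.2 p (Finset.mem_of_mem_erase hp) q (Finset.mem_of_mem_erase hq) hpq
    have hle := hmax _ hnew
    rw [Finset.card_insert_of_notMem huvQ, Finset.card_insert_of_notMem hvQ,
      Finset.card_erase_of_mem hz1] at hle
    have : 0 < Q.card := Finset.card_pos.mpr ⟨z1, hz1⟩
    omega
  · set dl := W ^ 2 / b ^ 2 with hdl
    have hdl0 : 0 ≤ dl := by positivity
    have hs1 : (0 : ℝ) ≤ s1 := Nat.cast_nonneg _
    have hyz1 := nm_one.mp hz1y
    have c1 : E0 α b θ1 σ + gg α b y + gg α b z1 - 4 * dl + σ - θ1 - 2 ≤ A1.card := by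
      have := D.DH_nadj hy hz1H hyz1.1 hyz1.2
      rw [DH_card] at this
      exact this
    have c2 := (D.Lam hy hz1H).1
    have c3 : (R.card : ℝ) ≤ s2 * (6 * s1 + 2008 * dl) := by
      have f1 : R.card ≤ ∑ j ∈ Q.erase z1, (B j).card := Finset.card_biUnion_le
      have f2 : (R.card : ℝ) ≤ ∑ j ∈ Q.erase z1, ((B j).card : ℝ) := by exact_mod_cast f1
      have f3 : ∑ j ∈ Q.erase z1, ((B j).card : ℝ) ≤ ∑ _j ∈ Q.erase z1, (6 * s1 + 2008 * dl) := by
        refine Finset.sum_le_sum fun j hj => ?_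
        rw [Finset.mem_erase] at hj
        have hjH := (hQ.1 j hj.2).1
        have hadj := hQ.2 z1 hz1 j hj.2 (Ne.symm hj.1)
        have g1 := (D.DH_adj hz1H hjH hadj).2
        rw [DH_card] at g1
        have g2 := (D.Lam hz1H hjH).2
        have g3 : ((B j).card : ℝ) =
          (((HB α b).filter (fun w => nm G z1 w = 1 ∧ nm G j w = 1)).card : ℝ) := rfl
        rw [g3]
        linarith
      rw [Finset.sum_const, nsmul_eq_mul] at f3
      have f4 : ((Q.erase z1).card : ℝ) ≤ s2 := by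
        have : (Q.erase z1).card ≤ s2 := (Finset.card_erase_le).trans hQcard.le
        exact_mod_cast this
      have f5 : ((Q.erase z1).card : ℝ) * (6 * s1 + 2008 * dl) ≤ s2 * (6 * s1 + 2008 * dl) :=
        mul_le_mul_of_nonneg_right f4 (by positivity)
      linarith
    have c4 : (A1.card : ℝ) ≤ U.card + R.card := by
      have : A1.card ≤ U.card + R.card := Finset.card_le_card_sdiff_add_card
      exact_mod_cast this
    have h1K := D.h1K
    nlinarith

/-- the case that `H` is a clique is impossible -/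
lemma Dn.exists_nm (D : Dn G T θ0 θ1 θ2 α K b σ W s1)
    (hσs : 6 * (8 * (K + 1) * (K + 8)) < σ) :
    ∃ y ∈ HB α b, ∃ z ∈ HB α b, nm G y z = 1 := by
  by_contra hcon
  push Not at hcon
  have hb := D.bpos
  have h1 := D.h1
  have h1K := D.h1K
  have hK := D.K1
  have hσ8 := D.σ8
  have hW := D.W0
  have hC : Hom G (HB α b) := by
    left
    intro u hu v hv huv
    by_contra hadj
    exact hcon u hu v hv (nm_one.mpr ⟨huv, hadj⟩)
  obtain ⟨x0, hx0⟩ := D.xm
  have hs0 : 1 ≤ 8 * (K + 1) * (K + 8) := by nlinarith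
  have key := hom_bound D.dat (by linarith) (by have := D.c2'; have := D.hσ; linarith) (HB α b) hC
    ⟨x0, D.xmH hx0⟩ (b / 2) b 8 (8 * (K + 1) * (K + 8)) (by positivity) (by
      intro x hx
      rw [mem_HB] at hx
      exact ⟨by linarith, D.bmax x⟩) D.eta hs0 (by
      have e1 : (θ1 + 1) * (θ1 + 8) ≤ (K + 1) * (K + 8) :=
        mul_le_mul (by linarith) (by linarith) (by linarith) (by linarith)
      have e2 : 0 ≤ b ^ 2 := sq_nonneg b
      nlinarith)
  rw [← D.hσ] at key
  have h2 := D.n_up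
  have h3 := D.h_lo
  have h4 := D.b40
  have h5 : b ^ 2 / 2 ≤ ((HB α b).card : ℝ) - 1 := by nlinarith
  have hs00 : 0 ≤ 8 * (K + 1) * (K + 8) := by linarith
  have h6 : (b ^ 2 / 2) * σ ≤ (8 * (K + 1) * (K + 8)) * (3 * b ^ 2) := by
    calc (b ^ 2 / 2) * σ ≤ (((HB α b).card : ℝ) - 1) * (θ1 * σ) := by
          apply mul_le_mul h5 (by nlinarith) (by linarith)
          have : 0 ≤ b ^ 2 := sq_nonneg b
          linarith
      _ ≤ _ := key
      _ ≤ _ := mul_le_mul_of_nonneg_left h2 hs00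
  have hb2 : 0 < b ^ 2 := by positivity
  have h7 : b ^ 2 * σ ≤ b ^ 2 * (6 * (8 * (K + 1) * (K + 8))) := by linarith
  have := le_of_mul_le_mul_left h7 hb2
  linarith

lemma Dn.dl_bd (D : Dn G T θ0 θ1 θ2 α K b σ W s1) (s2 : ℕ) (hs2 : (K + 1) ^ 2 + 1 ≤ s2)
    (hs2' : 30 * (s2 : ℝ) ^ 2 * (K + 1) * W < b ^ 2)
    (hbig : (K + 2 + 2 * s1 * s2 + 4 * s1 * (1 + s2)) + 2012 * (1 + s2) * (W ^ 2 / b ^ 2)
      ≤ 3 / 4 * σ) (hσs : 6 * (8 * (K + 1) * (K + 8)) < σ) :
    W ^ 2 / b ^ 2 ≤ 24 * (8 * (K + 1) * (K + 8)) * (K + 1) ^ 2 := by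
  obtain ⟨y, hy, z, hz, hyz⟩ := D.exists_nm hσs
  obtain ⟨U, hUH, hUc, hUcard⟩ := D.coclique s2 hs2 hs2' hbig hy hz hyz
  have hb := D.bpos
  have h1 := D.h1
  have h1K := D.h1K
  have hK := D.K1
  have hσ8 := D.σ8
  have hW := D.W0
  have hs0 : 1 ≤ 8 * (K + 1) * (K + 8) := by nlinarith
  have hUne : U.Nonempty := by
    rw [← Finset.card_pos]
    have : (0 : ℝ) < U.card := by linarith
    exact_mod_cast this
  have key := hom_bound D.dat (by linarith) (by have := D.c2'; have := D.hσ; linarith) U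
    (Or.inr hUc) hUne (b / 2) b 8 (8 * (K + 1) * (K + 8)) (by positivity) (by
      intro x hx
      have hx' := hUH hx
      rw [mem_HB] at hx'
      exact ⟨by linarith, D.bmax x⟩) D.eta hs0 (by
      have e1 : (θ1 + 1) * (θ1 + 8) ≤ (K + 1) * (K + 8) :=
        mul_le_mul (by linarith) (by linarith) (by linarith) (by linarith)
      have e2 : 0 ≤ b ^ 2 := sq_nonneg b
      nlinarith)
  rw [← D.hσ] at key
  have h2 := D.n_up
  have hs00 : 0 ≤ 8 * (K + 1) * (K + 8) := by linarith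
  have h5 : σ / 8 ≤ (U.card : ℝ) - 1 := by linarith
  have h6 : (σ / 8) * σ ≤ (8 * (K + 1) * (K + 8)) * (3 * b ^ 2) := by
    calc (σ / 8) * σ ≤ ((U.card : ℝ) - 1) * (θ1 * σ) := by
          apply mul_le_mul h5 (by nlinarith) (by linarith) (by linarith)
      _ ≤ _ := key
      _ ≤ _ := mul_le_mul_of_nonneg_left h2 hs00
  have hb2 : 0 < b ^ 2 := by positivity
  rw [div_le_iff₀ hb2]
  have h7 : W ^ 2 ≤ ((K + 1) * σ) ^ 2 := pow_le_pow_left₀ hW.1.le hW.2.2 2
  have h8 : ((K + 1) * σ) ^ 2 = (K + 1) ^ 2 * σ ^ 2 := by ring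
  have h9 : σ ^ 2 ≤ 24 * (8 * (K + 1) * (K + 8)) * b ^ 2 := by linarith
  calc W ^ 2 ≤ (K + 1) ^ 2 * σ ^ 2 := by rw [← h8]; exact h7
    _ ≤ (K + 1) ^ 2 * (24 * (8 * (K + 1) * (K + 8)) * b ^ 2) :=
        mul_le_mul_of_nonneg_left h9 (sq_nonneg _)
    _ = _ := by ring

/-- all large weights are equal -/
lemma Dn.const (D : Dn G T θ0 θ1 θ2 α K b σ W s1)
    (hint : ∀ x y, ∃ m : ℤ, α x * α y = m)
    (hdl : 2 * s1 + 1004 * (W ^ 2 / b ^ 2) < b) {y : V} (hy : y ∈ HB α b) : α y = b := by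
  obtain ⟨x0, hx0⟩ := D.xm
  have h1 := D.gdiff hy (D.xmH hx0)
  have hb := D.bpos
  have h2 : gg α b x0 = 0 := by unfold gg; rw [hx0]; ring
  rw [h2, sub_zero] at h1
  unfold gg at h1
  have h3 := D.bmax y
  have h4 : b - α y < 1 := by
    by_contra hcon
    push Not at hcon
    nlinarith
  obtain ⟨m1, hm1⟩ := hint x0 x0
  obtain ⟨m2, hm2⟩ := hint y y
  obtain ⟨m3, hm3⟩ := hint x0 y
  rw [hx0] at hm1 hm3
  have h5 : (b - α y) ^ 2 = ((m1 + m2 - 2 * m3 : ℤ) : ℝ) := by
    push_cast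
    rw [← hm1, ← hm2, ← hm3]; ring
  have h6 : (b - α y) ^ 2 < 1 := by nlinarith
  have h7 : 0 ≤ (b - α y) ^ 2 := sq_nonneg _
  rw [h5] at h6 h7
  have h8 : (m1 + m2 - 2 * m3 : ℤ) < 1 := by exact_mod_cast h6
  have h9 : (0 : ℤ) ≤ (m1 + m2 - 2 * m3 : ℤ) := by exact_mod_cast h7
  have h10 : (m1 + m2 - 2 * m3 : ℤ) = 0 := by omega
  rw [h10] at h5
  have h11 : b - α y = 0 := by
    have : (b - α y) ^ 2 = 0 := by rw [h5]; simp
    exact pow_eq_zero_iff (two_ne_zero) |>.mp this
  linarith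

/-- the small part is empty -/
lemma Dn.noS (D : Dn G T θ0 θ1 θ2 α K b σ W s1) (hc : ∀ y ∈ HB α b, α y = b) (x : V)
    (hx : x ∈ SB α b) : False := by
  have hb := D.bpos
  have hW := D.W0
  have hb40 := D.b40
  have hσ8 := D.σ8
  have h1 := D.h1
  have hK := D.K1
  have hlo := D.th0_lo2
  have hxp := D.dat.pos x
  have hxS := D.Sup hx
  -- eigenvalue equation in S
  have eS : ∀ z ∈ SB α b, b * (α z ^ 2 + θ1 * σ) = θ0 * α z := by
    intro z hz
    have e1 := D.dat.eig z
    have e2 : ∑ y, ad G z y * α y = ∑ y, ad G z y * b := by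
      refine Finset.sum_congr rfl fun y _ => ?_
      by_cases hzy : G.Adj z y
      · rw [hc y (D.nbS hz hzy)]
      · unfold ad; rw [if_neg hzy]; ring
    rw [e2, ← Finset.sum_mul, sum_ad, deg_eq D.dat z, ← D.hσ] at e1
    linarith
  have eα : ∀ z ∈ SB α b, α z = α x := by
    intro z hz
    have e1 := eS z hz
    have e2 := eS x hx
    have e3 : (α z - α x) * (b * (α z + α x) - θ0) = 0 := by linear_combination e1 - e2
    rcases mul_eq_zero.mp e3 with h | h
    · linarith
    · exfalso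
      have := D.Sup hz
      nlinarith
  set a := α x with ha
  have hab : a < b := by
    rw [mem_SB] at hx
    linarith
  -- equation in H
  have eH : ∀ y ∈ HB α b, b * dd G (HB α b) y + a * dd G (SB α b) y = θ0 * b := by
    intro y hy
    have e1 := D.dat.eig y
    rw [← sum_HS (α := α) (b := b) (fun z => ad G y z * α z), hc y hy] at e1
    rw [← e1]
    unfold dd
    rw [Finset.mul_sum, Finset.mul_sum]
    congr 1
    · refine Finset.sum_congr rfl fun z hz => ?_
      rw [hc z hz, ad_symm z y]; ring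
    · refine Finset.sum_congr rfl fun z hz => ?_
      rw [eα z hz, ad_symm z y]; ring
  have eD : ∀ y ∈ HB α b, dd G (HB α b) y + dd G (SB α b) y = b ^ 2 + θ1 * σ := by
    intro y hy
    rw [dd_HS, deg_eq D.dat y, hc y hy, ← D.hσ]
  set k := b * (b ^ 2 + θ1 * σ - θ0) / (b - a) with hk
  have hba : 0 < b - a := by linarith
  have ek : ∀ y ∈ HB α b, dd G (SB α b) y = k := by
    intro y hy
    rw [hk, eq_div_iff hba.ne']
    have e1 := eH y hy
    have e2 := eD y hy
    have e3 : dd G (HB α b) y = b ^ 2 + θ1 * σ - dd G (SB α b) y := by linarith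
    rw [e3] at e1
    linarith
  obtain ⟨y, hy⟩ := exists_adj D.dat (by rw [← D.hσ]; nlinarith) x
  have hyH := D.nbS hx hy
  set m : ℝ := ((SB α b).card : ℝ) with hm
  have hcount : ∀ w : V, ∑ z ∈ SB α b, (cd G w z : ℝ) = ∑ v, ad G w v * dd G (SB α b) v := by
    intro w
    have : ∀ z ∈ SB α b, (cd G w z : ℝ) = ∑ v, ad G w v * ad G v z :=
      fun z _ => (ad_sq w z).symm
    rw [Finset.sum_congr rfl this, Finset.sum_comm]
    refine Finset.sum_congr rfl fun v _ => ?_
    unfold dd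
    rw [Finset.mul_sum]
    exact Finset.sum_congr rfl fun z _ => by rw [ad_symm v z]
  have i1 : (a ^ 2 + θ1 * σ) * k = m * a ^ 2 + θ1 * σ := by
    have e1 := hcount x
    have e2 : ∑ v, ad G x v * dd G (SB α b) v = (a ^ 2 + θ1 * σ) * k := by
      have : ∀ v, ad G x v * dd G (SB α b) v = ad G x v * k := by
        intro v
        by_cases hxv : G.Adj x v
        · rw [ek v (D.nbS hx hxv)]
        · unfold ad; rw [if_neg hxv]; ring
      rw [Finset.sum_congr rfl fun v _ => this v, ← Finset.sum_mul, sum_ad, deg_eq D.dat x,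
        ← D.hσ]
    have e3 : ∑ z ∈ SB α b, (cd G x z : ℝ) = m * a ^ 2 + θ1 * σ := by
      have : ∀ z ∈ SB α b, (cd G x z : ℝ) = a ^ 2 + (if x = z then θ1 * σ else 0) := by
        intro z hz
        by_cases hxz : x = z
        · rw [if_pos hxz, ← hxz]
          have : cd G x x = G.degree x := by unfold cd; rw [Finset.inter_self]; rfl
          rw [this, deg_eq D.dat x, ← D.hσ]
        · rw [if_neg hxz, D.dat.nadj x z hxz (D.Scoc x hx z hz), eα z hz]; ring
      rw [Finset.sum_congr rfl this, Finset.sum_add_distrib, Finset.sum_const, nsmul_eq_mul,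
        Finset.sum_ite_eq, if_pos hx]
    rw [← e2, ← e1, e3]
  have i2 : m * (a * b) + (θ1 - σ) * k = k * dd G (HB α b) y := by
    have e1 := hcount y
    have e2 : ∑ v, ad G y v * dd G (SB α b) v = k * dd G (HB α b) y := by
      rw [← sum_HS (α := α) (b := b) (fun v => ad G y v * dd G (SB α b) v)]
      have f1 : ∑ v ∈ SB α b, ad G y v * dd G (SB α b) v = 0 := by
        refine Finset.sum_eq_zero fun v hv => ?_
        have : dd G (SB α b) v = 0 := by
          unfold dd
          refine Finset.sum_eq_zero fun w hw => ?_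
          unfold ad; rw [if_neg (D.Scoc w hw v hv)]
        rw [this]; ring
      rw [f1, add_zero]
      unfold dd
      rw [Finset.mul_sum]
      refine Finset.sum_congr rfl fun v hv => ?_
      have := ek v hv
      unfold dd at this
      rw [this, ad_symm v y]; ring
    have e3 : ∑ z ∈ SB α b, (cd G y z : ℝ) = m * (a * b) + (θ1 - σ) * k := by
      have : ∀ z ∈ SB α b, (cd G y z : ℝ) = a * b + (θ1 - σ) * ad G z y := by
        intro z hz
        have hne : y ≠ z := by
          rintro rfl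
          rw [mem_HB] at hyH; rw [mem_SB] at hz; linarith
        by_cases hyz : G.Adj y z
        · rw [D.dat.adj y z hyz, hc y hyH, eα z hz]
          have : ad G z y = 1 := by unfold ad; rw [if_pos hyz.symm]
          have h9 := D.hσ
          rw [this]; linarith
        · rw [D.dat.nadj y z hne hyz, hc y hyH, eα z hz]
          have : ad G z y = 0 := by unfold ad; rw [if_neg (fun hh => hyz hh.symm)]
          rw [this]; ring
      rw [Finset.sum_congr rfl this, Finset.sum_add_distrib, Finset.sum_const, nsmul_eq_mul,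
        ← Finset.mul_sum]
      have f1 : ∑ z ∈ SB α b, ad G z y = k := ek y hyH
      rw [f1]
    rw [← e2, ← e1, e3]
  have i3 := eH y hyH
  rw [ek y hyH] at i3
  have i4 := eS x hx
  have hkpos : 0 ≤ k := by rw [← ek y hyH]; exact dd_nonneg _ _
  set N := dd G (HB α b) y with hN
  have i5 : (a * k - σ * b) * (a * k + θ1 * b) = 0 := by
    -- P (b(θ0-N) + b(θ1-σ)) = θ1 σ b²
    have j1 : a * k * (θ0 - N + θ1 - σ) = θ1 * σ * b := by
      linear_combination b * i1 - k * i4 + a * i2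
    have j2 : b * (θ0 - N) = a * k := by linear_combination (-1 : ℝ) * i3
    linear_combination b * j1 + (-(a * k)) * j2
  have hpos2 : 0 < a * k + θ1 * b := by
    have : 0 ≤ a * k := mul_nonneg hxp.le hkpos
    have : 0 < θ1 * b := by positivity
    linarith
  have i6 : a * k = σ * b := by
    rcases mul_eq_zero.mp i5 with h | h
    · linarith
    · exact absurd h hpos2.ne'
  have hks : k ≤ s1 := by rw [← ek y hyH]; exact D.star y
  have i7 : σ * b ^ 2 ≤ 2 * W * s1 := by
    calc σ * b ^ 2 = b * (σ * b) := by ring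
      _ = (b * a) * k := by rw [← i6]; ring
      _ ≤ (2 * W) * k := mul_le_mul_of_nonneg_right hxS hkpos
      _ ≤ (2 * W) * s1 := mul_le_mul_of_nonneg_left hks (by linarith [hW.1])
  have i8 : 2 * W * s1 ≤ σ * σ := by
    have f1 : 2 * W * s1 ≤ 2 * ((K + 1) * σ) * s1 := by
      apply mul_le_mul_of_nonneg_right _ (Nat.cast_nonneg _)
      linarith [hW.2.2]
    have f2 : 2 * ((K + 1) * σ) * s1 ≤ σ * (2 * s1 * (1 + 2 * K)) := by
      have : (0 : ℝ) ≤ s1 := Nat.cast_nonneg _
      have : 0 ≤ σ * s1 := by positivity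
      nlinarith
    have f3 := D.c4'
    have f4 : σ * (2 * s1 * (1 + 2 * K)) ≤ σ * σ := mul_le_mul_of_nonneg_left f3 (by linarith)
    linarith
  have i9 : σ * b ^ 2 ≤ σ * σ := i7.trans i8
  have i10 := le_of_mul_le_mul_left i9 (by linarith)
  linarith [hW.2.1]

end TS
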