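import Mathlib
import Pool.Agent.TS.Dense3
import Pool.Agent.TS.Zero

set_option autoImplicit false
set_option linter.unusedSectionVars false
set_option linter.unusedSimpArgs false
set_option linter.unusedVariables false

namespace TS

open Finset TE

theorem large_false (K : ℝ) (hK : 1 ≤ K) : ∃ S0 : ℝ, K + 2 < S0 ∧
    ∀ (V : Type) [Fintype V] [DecidableEq V] (G : SimpleGraph V) [DecidableRel G.Adj]
      (T θ0 θ1 θ2 : ℝ) (α : V → ℝ), Dat G T θ0 θ1 θ2 α → (¬ ∃ d, G.IsRegularOfDegree d) →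
      1 ≤ θ1 → θ1 ≤ K → S0 ≤ -θ2 → False := by
  obtain ⟨s1, hs1⟩ : ∃ s1 : ℕ, K ^ 2 + 16 * K + 2 ≤ s1 := ⟨⌈K ^ 2 + 16 * K + 2⌉₊, Nat.le_ceil _⟩
  obtain ⟨s2, hs2⟩ : ∃ s2 : ℕ, (K + 1) ^ 2 + 1 ≤ s2 := ⟨⌈(K + 1) ^ 2 + 1⌉₊, Nat.le_ceil _⟩
  set X : ℝ := K + 1 with hX
  have hX2 : 2 ≤ X := by linarith
  set A : ℝ := (s1 : ℝ) with hA
  set B : ℝ := (s2 : ℝ) with hB
  have hA1 : 1 ≤ A := by nlinarith
  have hB1 : 1 ≤ B := by nlinarith
  set M : ℝ := 4024 * (1 + A) * (1 + B) ^ 2 * X ^ 2 with hM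
  have hMB : 4024 * (1 + B) ^ 2 * X ^ 2 ≤ M := by
    have : 0 ≤ (1 + B) ^ 2 * X ^ 2 := by positivity
    rw [hM]; nlinarith
  have hMA : 4024 * (1 + A) * X ^ 2 ≤ M := by
    have h1 : 1 ≤ (1 + B) ^ 2 := by nlinarith
    have h2 : 0 ≤ (1 + A) * X ^ 2 := by positivity
    rw [hM]; nlinarith
  have hMX : 4024 * X ^ 2 ≤ M := by
    have h1 : 1 ≤ (1 + B) ^ 2 := by nlinarith
    have h2 : 0 ≤ X ^ 2 := by positivity
    nlinarith
  have hM1 : 1 ≤ M := by nlinarith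
  have hMM : M ≤ M ^ 2 := by nlinarith
  obtain ⟨k, hk⟩ : ∃ k : ℕ, 1 + s0 M K * C1 M K < k := exists_nat_gt _
  set c3 : ℝ := 24 * (8 * (K + 1) * (K + 8)) * (K + 1) ^ 2 with hc3
  have hc30 : 0 ≤ c3 := by positivity
  set c4 : ℝ := 2 * A + 1004 * c3 with hc4
  have hc40 : 0 ≤ c4 := by positivity
  set p1 : ℝ := 2 * K + 1 with hp1
  set p2 : ℝ := 2 * A * (1 + 2 * K) with hp2
  set p3 : ℝ := 6 * (8 * (K + 1) * (K + 8)) + 1 with hp3
  set p4 : ℝ := 4 * (K + 2 + 2 * A * B + 4 * A * (1 + B)) with hp4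
  set p5 : ℝ := (c4 + 1) ^ 2 with hp5
  set p6 : ℝ := (2 : ℝ) ^ (k + k) with hp6
  have n1 : 0 ≤ p1 := by positivity
  have n2 : 0 ≤ p2 := by positivity
  have n3 : 0 ≤ p3 := by positivity
  have n4 : 0 ≤ p4 := by positivity
  have n5 : 0 ≤ p5 := by positivity
  have n6 : 0 ≤ p6 := by positivity
  refine ⟨8 + A + p1 + p2 + p3 + p4 + p5 + p6, by linarith, ?_⟩
  intro V _ _ G _ T θ0 θ1 θ2 α h hreg h1 h1K hS
  set σ := -θ2 with hσ
  have hσ8 : 8 ≤ σ := by linarith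
  have hσ0 : 0 < σ := by linarith
  have hg1 : p1 ≤ σ := by linarith
  have hg2 : p2 ≤ σ := by linarith
  have hg3 : p3 ≤ σ := by linarith
  have hg4 : p4 ≤ σ := by linarith
  have hg5 : p5 ≤ σ := by linarith
  have hg6 : p6 ≤ σ := by linarith
  have hgA : A ≤ σ := by linarith
  obtain ⟨x1, hx1⟩ := sparse h M K hM1 hK h1 h1K (by rw [← hσ]; linarith) k hk
    (by rw [← hσ]; exact hg6)
  rw [← hσ] at hx1
  obtain ⟨xm, _, hxm⟩ := Finset.exists_max_image (Finset.univ : Finset V) α ⟨x1, Finset.mem_univ _⟩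
  set b := α xm with hb
  have hb0 : 0 < b := h.pos xm
  have hbM : M ^ 2 * σ ≤ b ^ 2 := by
    have h2 := hxm x1 (Finset.mem_univ _)
    have h3 := h.pos x1
    have h4 : α x1 ^ 2 ≤ b ^ 2 := pow_le_pow_left₀ h3.le h2 2
    linarith
  have hbM' : M * σ ≤ b ^ 2 := by
    have : M * σ ≤ M ^ 2 * σ := mul_le_mul_of_nonneg_right hMM hσ0.le
    linarith
  set W := (θ1 + 1) * σ with hW
  have hW0 : 0 < W := by positivity
  have hWX : W ≤ X * σ := by rw [hW, hX]; exact mul_le_mul_of_nonneg_right (by linarith) hσ0.le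
  -- key: any constant c with c * X ≤ M gives c * W ≤ b^2
  have keyW : ∀ c : ℝ, 0 ≤ c → c * X ≤ M → c * W ≤ b ^ 2 := by
    intro c hc hcX
    calc c * W ≤ c * (X * σ) := mul_le_mul_of_nonneg_left hWX hc
      _ = (c * X) * σ := by ring
      _ ≤ M * σ := mul_le_mul_of_nonneg_right hcX hσ0.le
      _ ≤ b ^ 2 := hbM'
  have hXX : X ≤ X ^ 2 := by
    have : X * 1 ≤ X * X := mul_le_mul_of_nonneg_left (by linarith) (by linarith)
    have h2 : X ^ 2 = X * X := by ring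
    linarith
  have D : Dn G T θ0 θ1 θ2 α K b σ W s1 :=
    { dat := h
      hσ := hσ
      hW := hW
      K1 := hK
      h1 := h1
      h1K := h1K
      σ8 := hσ8
      bpos := hb0
      bmax := fun x => hxm x (Finset.mem_univ _)
      xm := ⟨xm, rfl⟩
      b40 := keyW 40 (by norm_num) (by linarith [sq_nonneg X])
      c2 := by
        have e1 : 8 * X * W ≤ b ^ 2 := keyW (8 * X) (by positivity) (by
          have : 8 * X * X = 8 * X ^ 2 := by ring
          linarith [sq_nonneg X])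
        calc 8 * W ^ 2 = 8 * W * W := by ring
          _ ≤ 8 * W * (X * σ) := mul_le_mul_of_nonneg_left hWX (by positivity)
          _ = (8 * X * W) * σ := by ring
          _ ≤ b ^ 2 * σ := mul_le_mul_of_nonneg_right e1 hσ0.le
      c2' := by linarith
      c3 := by
        have e1 : 8 * A * W ≤ b ^ 2 := keyW (8 * A) (by positivity) (by
          have i1 : A * X ≤ (1 + A) * X ^ 2 :=
            mul_le_mul (by linarith) hXX (by linarith) (by linarith)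
          have i2 : 0 ≤ (1 + A) * X ^ 2 := by positivity
          have i3 : 8 * A * X = 8 * (A * X) := by ring
          linarith)
        calc 64 * (s1 : ℝ) ^ 2 * W ^ 2 = (8 * A * W) ^ 2 := by rw [hA]; ring
          _ ≤ (b ^ 2) ^ 2 := pow_le_pow_left₀ (by positivity) e1 2
          _ = b ^ 4 := by ring
      c3' := hs1
      c4 := hgA
      c4' := hg2 }
  have hs2' : 30 * (s2 : ℝ) ^ 2 * (K + 1) * W < b ^ 2 := by
    have e1 : (31 * B ^ 2 * X) * W ≤ b ^ 2 := keyW (31 * B ^ 2 * X) (by positivity) (by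
      have e2 : B ^ 2 ≤ (1 + B) ^ 2 := by nlinarith
      have e3 : B ^ 2 * X ^ 2 ≤ (1 + B) ^ 2 * X ^ 2 :=
        mul_le_mul_of_nonneg_right e2 (by positivity)
      have e5 : 31 * B ^ 2 * X * X = 31 * (B ^ 2 * X ^ 2) := by ring
      have e6 : 4024 * ((1 + B) ^ 2 * X ^ 2) ≤ M := by
        have : 4024 * ((1 + B) ^ 2 * X ^ 2) = 4024 * (1 + B) ^ 2 * X ^ 2 := by ring
        linarith
      have e7 : 0 ≤ (1 + B) ^ 2 * X ^ 2 := by positivity
      linarith)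
    have e4 : 0 < B ^ 2 * X * W := by positivity
    calc 30 * (s2 : ℝ) ^ 2 * (K + 1) * W = (31 * B ^ 2 * X) * W - B ^ 2 * X * W := by
          rw [hB, hX]; ring
      _ < (31 * B ^ 2 * X) * W := by linarith
      _ ≤ b ^ 2 := e1
  have hdlM : W ^ 2 / b ^ 2 * M ≤ X ^ 2 * σ := by
    have hb2 : 0 < b ^ 2 := by positivity
    rw [div_mul_eq_mul_div, div_le_iff₀ hb2]
    calc W ^ 2 * M ≤ (X * σ) ^ 2 * M :=
          mul_le_mul_of_nonneg_right (pow_le_pow_left₀ hW0.le hWX 2) (by linarith)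
      _ = (X ^ 2 * σ) * (M * σ) := by ring
      _ ≤ (X ^ 2 * σ) * b ^ 2 := mul_le_mul_of_nonneg_left hbM' (by positivity)
  have hdl0 : 0 ≤ W ^ 2 / b ^ 2 := by positivity
  have hbig : (K + 2 + 2 * (s1 : ℝ) * s2 + 4 * s1 * (1 + s2)) +
      2012 * (1 + (s2 : ℝ)) * (W ^ 2 / b ^ 2) ≤ 3 / 4 * σ := by
    have e1 : 4024 * (1 + B) * X ^ 2 ≤ M := by
      have h1 : (1 + B) ≤ (1 + B) ^ 2 := by
        have : (1 + B) ^ 2 = (1 + B) * (1 + B) := by ring
        rw [this]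
        have h0 : (1 + B) * 1 ≤ (1 + B) * (1 + B) :=
          mul_le_mul_of_nonneg_left (by linarith) (by linarith)
        linarith
      have h2 : (1 + B) * X ^ 2 ≤ (1 + B) ^ 2 * X ^ 2 :=
        mul_le_mul_of_nonneg_right h1 (by positivity)
      linarith
    have e2 : (W ^ 2 / b ^ 2) * (4024 * (1 + B) * X ^ 2) ≤ X ^ 2 * σ :=
      (mul_le_mul_of_nonneg_left e1 hdl0).trans hdlM
    have e3 : X ^ 2 * ((W ^ 2 / b ^ 2) * (4024 * (1 + B))) ≤ X ^ 2 * σ := by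
      calc _ = (W ^ 2 / b ^ 2) * (4024 * (1 + B) * X ^ 2) := by ring
        _ ≤ _ := e2
    have e4 := le_of_mul_le_mul_left e3 (by positivity)
    have e5 : 4 * (K + 2 + 2 * A * B + 4 * A * (1 + B)) ≤ σ := hg4
    linarith
  have hσs : 6 * (8 * (K + 1) * (K + 8)) < σ := by linarith
  have hdlc := D.dl_bd s2 hs2 hs2' hbig hσs
  have hbc : 2 * (s1 : ℝ) + 1004 * (W ^ 2 / b ^ 2) < b := by
    have e1 : 2 * (s1 : ℝ) + 1004 * (W ^ 2 / b ^ 2) ≤ c4 := by rw [hc4]; linarith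
    have e2 : (c4 + 1) ^ 2 ≤ b ^ 2 := by
      have : 1 * σ ≤ M * σ := mul_le_mul_of_nonneg_right hM1 hσ0.le
      linarith
    have e3 : c4 + 1 ≤ b := (pow_le_pow_iff_left₀ (by linarith) hb0.le two_ne_zero).mp e2
    linarith
  have hθ1pos : 0 < θ1 := by linarith
  have hcH : ∀ y ∈ HB α b, α y = b := fun y hy =>
    D.const (int_mul h hreg hθ1pos) hbc hy
  apply hreg
  apply h.reg_of_const
  have hall : ∀ x, α x = b := by
    intro x
    apply hcH
    by_contra hx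
    have : x ∈ SB α b := by
      rw [mem_SB]; rw [mem_HB] at hx; linarith
    exact D.noS hcH x this
  intro x y _
  rw [hall x, hall y]

end TS
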